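import Pool.Agent.D0H45.QK.Asy
import Pool.Agent.Y699.Sqf
import Pool.Agent.Y699.Qa
import Pool.Agent.D0H10.Q4.StmB

/-!
# The exact proportion over `ℤ[i]`

For a quadratic character `ψ` at the prime above two and a class of squarefree primary elements which
has positive lower density, the matrix (the Laplacian of the quadratic symbols of the primes, plus
`ψ` on the diagonal) is nonsingular for exactly the proportion `∏_{i ≥ 0} (1 - 2^{-(2i+1)})`. After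
the joint work on projects CQ, XK and Q4 (helpers 703, 710, 356, 839, 948, 219, 657, 302, 697, 391,
474, 433, 550, 363, 413 and 699).
-/

set_option autoImplicit false

open scoped Classical Topology
open Finset Filter

namespace Pool.Agent.D0H45.QK

open H385 (ZI im1 nrm)
open Pool.Agent.Y699 hiding XX kk
open Pool.Agent.Y703.CQ (c2)
open Pool.Agent.H304R2.EC.A1 (prim prim_mul)
open Pool.Agent.W164.RC (two2 prim_iff_dvd)

variable {L : Cls}

/-- the class of the elements -/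
def ClD (L : Cls) (Δ : ZI) : Prop := ∏ π ∈ PD Δ, L.f π ∈ L.K

theorem card_eq (L : Cls) (X : ℕ) (P : Finset ZI → Prop) :
    ((SB X).filter fun Δ => ClD L Δ ∧ P (PD Δ)).card = ((SS L X).filter P).card := by
  refine card_bij (fun Δ _ => PD Δ) ?_ ?_ ?_
  · intro Δ hΔ
    rw [mem_filter, mem_SB] at hΔ
    obtain ⟨⟨h1, h2⟩, h3, h4⟩ := hΔ
    rw [mem_filter, mem_SS]
    refine ⟨⟨⟨fun π hπ => ((mem_PD h2.ne).1 hπ).1, h3⟩, ?_⟩, h4⟩
    rw [← nrm_prod, h2.prod]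
    exact h1
  · intro Δ hΔ Δ' hΔ' h
    rw [mem_filter, mem_SB] at hΔ hΔ'
    have h' : PD Δ = PD Δ' := h
    rw [← hΔ.1.2.prod, ← hΔ'.1.2.prod, h']
  · intro S hS
    rw [mem_filter, mem_SS] at hS
    obtain ⟨⟨⟨h1, h2⟩, h3⟩, h4⟩ := hS
    obtain ⟨k1, k2⟩ := PS_prod h1
    refine ⟨∏ π ∈ S, π, ?_, k2⟩
    rw [mem_filter, mem_SB, nrm_prod]
    unfold ClD
    rw [k2]
    exact ⟨⟨h3, k1⟩, h2, h4⟩

/-- **The proportion, in terms of the elements.** -/
theorem den {ψ : ZI → ℝ} {q : ZI} (hψ : Psi ψ q) (L : Cls) (hLo : Low L) : Tendsto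
    (fun X : ℕ => (((SB X).filter fun Δ => ClD L Δ ∧ Gd nq (tq ψ) (PD Δ)).card : ℝ) /
      (((SB X).filter (ClD L)).card : ℝ)) atTop (𝓝 c2) := by
  refine (t_DQ hψ L hLo).congr fun X => ?_
  rw [← card_eq L X (Gd nq (tq ψ))]
  have h := card_eq L X fun _ => True
  rw [filter_true] at h
  simp only [and_true] at h
  rw [← h]

/-- the trivial class -/
noncomputable def LT : Cls where
  M := Unit
  f := fun _ => ()
  K := Set.univ

/-- the class of the elements whose norm has given residues modulo `16` -/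
noncomputable def LN16 (R : Set (ZMod 16)) : Cls where
  M := ZMod 16
  f := fun π => (nrm π : ZMod 16)
  K := R

theorem clT (Δ : ZI) : ClD LT Δ := Set.mem_univ _

theorem clN {R : Set (ZMod 16)} {Δ : ZI} (h : PS Δ) :
    ClD (LN16 R) Δ ↔ ((nrm Δ : ℕ) : ZMod 16) ∈ R := by
  have h1 : ∏ π ∈ PD Δ, (LN16 R).f π = ((nrm Δ : ℕ) : ZMod 16) := by
    conv_rhs => rw [← h.prod]
    rw [nrm_prod]
    push_cast
    rfl
  unfold ClD
  rw [h1]
  rfl

theorem low_of (L : Cls) {c : ℝ} (hc : 0 < c) (Q : ZI → Prop) (hQ : ∀ Δ, PS Δ → Q Δ → ClD L Δ)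
    {V0 : ℕ} (h : ∀ V : ℕ, V0 ≤ V → c * V ≤ (((SB V).filter Q).card : ℝ)) : Low L := by
  refine ⟨c, V0, hc, fun X hX => (h X hX).trans ?_⟩
  have h1 := card_eq L X fun _ => True
  rw [filter_true] at h1
  simp only [and_true] at h1
  rw [← h1]
  have h2 : (SB X).filter Q ⊆ (SB X).filter (ClD L) := by
    intro Δ hΔ
    rw [mem_filter] at hΔ ⊢
    exact ⟨hΔ.1, hQ Δ (mem_SB.1 hΔ.1).2 hΔ.2⟩
  exact_mod_cast card_le_card h2

theorem lowT : Low LT := by
  obtain ⟨V0, h⟩ := sqf_count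
  refine low_of LT (c := 1 / 35) (by norm_num) (fun m => m.norm % 8 = 1) (fun Δ _ _ => clT Δ)
    (V0 := V0) fun V hV => ?_
  calc (1 / 35 : ℝ) * V = (V : ℝ) / 35 := by ring
    _ ≤ _ := by convert h V hV 1 (Or.inl rfl)

/-- the classes modulo `16` of the norm -/
theorem lowN {R : Set (ZMod 16)} {r : ℕ} (hr : r = 1 ∨ r = 5 ∨ r = 9 ∨ r = 13)
    (hR : (r : ZMod 16) ∈ R) : Low (LN16 R) := by
  obtain ⟨V0, h⟩ := sqf_count4
  refine low_of (LN16 R) (c := 1 / 140) (by norm_num) (fun m => m.norm % 16 = (r : ℤ)) ?_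
    (V0 := V0) fun V hV => ?_
  · intro Δ hΔ h1
    rw [clN hΔ]
    have h2 : ((nrm Δ : ℕ) : ZMod 16) = ((r : ℕ) : ZMod 16) := by
      rw [ZMod.natCast_eq_natCast_iff]
      have h3 : (nrm Δ : ℤ) % 16 = (r : ℤ) % 16 := by
        rw [nrm_cast, h1]
        rcases hr with h | h | h | h <;> rw [h] <;> rfl
      have h4 : ((nrm Δ % 16 : ℕ) : ℤ) = ((r % 16 : ℕ) : ℤ) := by
        push_cast
        exact h3
      exact_mod_cast h4
    rw [h2]
    exact hR
  · have h1 : (r : ℤ) = 1 ∨ (r : ℤ) = 5 ∨ (r : ℤ) = 9 ∨ (r : ℤ) = 13 := by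
      rcases hr with h | h | h | h <;> rw [h] <;> simp
    calc (1 / 140 : ℝ) * V = (V : ℝ) / 140 := by ring
      _ ≤ _ := by convert h V hV r h1

/-- the character of the norm modulo `8` -/
noncomputable def ψ8 (a : ZI) : ℝ := if a.norm % 8 = 5 then -1 else 1

theorem psi8 : Psi ψ8 4 where
  two := ⟨2, ⟨⟨0, 2⟩, by decide⟩⟩
  per := by
    intro a b h
    obtain ⟨c, hc⟩ := h
    have ha : a = b + 4 * c := by rw [← hc]; ring
    have h1 : a.norm % 8 = b.norm % 8 := by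
      have h2 : a.norm = b.norm + 8 * (b.re * c.re + b.im * c.im + 2 * c.re ^ 2 + 2 * c.im ^ 2) := by
        have e1 : a.re = b.re + 4 * c.re := by rw [ha]; simp
        have e2 : a.im = b.im + 4 * c.im := by rw [ha]; simp
        rw [Zsqrtd.norm_def, Zsqrtd.norm_def, e1, e2]
        ring
      rw [h2]
      omega
    unfold ψ8
    rw [h1]
  val := by
    intro a _
    unfold ψ8
    split_ifs
    · exact Or.inr rfl
    · exact Or.inl rfl
  mul := by
    intro a b ha hb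
    have h1 := prim_norm_four ha
    have h2 := prim_norm_four hb
    unfold ψ8
    rw [Zsqrtd.norm_mul, Int.mul_emod]
    rcases h1 with h1 | h1 <;> rcases h2 with h2 | h2 <;> rw [h1, h2] <;> norm_num
  nt := by
    refine ⟨⟨-1, 2⟩, ⟨by decide, by decide⟩, ?_⟩
    unfold ψ8
    rw [if_pos]
    decide

/-- the matrix on vectors -/
theorem mulVec_eq {Δ : ZI} (hΔ : Δ ≠ 0) (t : ZI → ZMod 2) (x : ZI → ZMod 2)
    (i : (univ : Finset {π : ZI // π ∈ PD Δ})) :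
    (Pool.Agent.D0H10.Q4.MQ (fun π => t (fam Δ π)) (em (fam Δ)) univ).mulVec
      (fun j => x (fam Δ j)) i =
      ∑ ρ ∈ PD Δ, nq i.1.1 ρ * (x ρ + x i.1.1) + t i.1.1 * x i.1.1 := by
  have hPF := fam_PF hΔ
  have h0 : ∀ F : ZI → ZMod 2, ∑ j : (univ : Finset {π : ZI // π ∈ PD Δ}), F j.1.1 =
      ∑ ρ ∈ PD Δ, F ρ := by
    intro F
    rw [Finset.sum_coe_sort univ (fun j : {π : ZI // π ∈ PD Δ} => F j.1), Finset.sum_coe_sort (PD Δ) F]
  have h1 : (Pool.Agent.D0H10.Q4.MQ (fun π => t (fam Δ π)) (em (fam Δ)) univ).mulVec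
      (fun j => x (fam Δ j)) i = ∑ j : (univ : Finset {π : ZI // π ∈ PD Δ}),
      (Pool.Agent.D0H10.Q4.MQ (fun π => t (fam Δ π)) (em (fam Δ)) univ) i j * x j.1.1 := rfl
  have hs : nq i.1.1 i.1.1 = 0 := nq_self _ (hPF.pp i.1)
  have hd : ∑ l ∈ (univ : Finset {π : ZI // π ∈ PD Δ}).erase i.1, em (fam Δ) l i.1 =
      ∑ ρ ∈ PD Δ, nq i.1.1 ρ := by
    rw [← Finset.sum_coe_sort (PD Δ) (fun ρ => nq i.1.1 ρ),
      ← Finset.add_sum_erase univ _ (Finset.mem_univ i.1), hs, zero_add]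
    rfl
  have h2 : ∀ j : (univ : Finset {π : ZI // π ∈ PD Δ}),
      (Pool.Agent.D0H10.Q4.MQ (fun π => t (fam Δ π)) (em (fam Δ)) univ) i j * x j.1.1 =
      nq i.1.1 j.1.1 * x j.1.1 +
        (if i = j then (t i.1.1 + ∑ ρ ∈ PD Δ, nq i.1.1 ρ) * x i.1.1 else 0) := by
    intro j
    unfold Pool.Agent.D0H10.Q4.MQ
    rw [Matrix.of_apply]
    by_cases hij : i = j
    · subst hij
      rw [if_pos rfl, if_pos rfl, hd, hs, zero_mul, zero_add]
      rfl
    · rw [if_neg hij, if_neg hij, add_zero]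
      rfl
  rw [h1, Finset.sum_congr rfl fun j _ => h2 j, Finset.sum_add_distrib, Finset.sum_ite_eq,
    if_pos (Finset.mem_univ _), h0 fun ρ => nq i.1.1 ρ * x ρ]
  simp only [mul_add, Finset.sum_add_distrib]
  rw [← Finset.sum_mul]
  ring

/-- **The good elements and the determinant.** -/
theorem gd_iff_det {Δ : ZI} (hΔ : Δ ≠ 0) (t : ZI → ZMod 2) : Gd nq t (PD Δ) ↔
    (Pool.Agent.D0H10.Q4.MQ (fun π => t (fam Δ π)) (em (fam Δ)) univ).det ≠ 0 := by
  constructor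
  · intro h h0
    obtain ⟨v, hv, hv0⟩ := Matrix.exists_mulVec_eq_zero_iff.2 h0
    set x : ZI → ZMod 2 := fun n => if h : n ∈ PD Δ then v ⟨⟨n, h⟩, Finset.mem_univ _⟩ else 0 with hx
    have hxv : (fun q : (univ : Finset {π : ZI // π ∈ PD Δ}) => x (fam Δ q)) = v := by
      funext q
      exact dif_pos q.1.2
    apply hv
    funext p
    rw [← hxv]
    refine h x (fun q hq => ?_) p.1.1 p.1.2
    have h1 := mulVec_eq hΔ t x ⟨⟨q, hq⟩, Finset.mem_univ _⟩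
    rw [hxv, hv0] at h1
    exact h1.symm
  · intro h x hx p hp
    by_contra hc
    apply h
    refine Matrix.exists_mulVec_eq_zero_iff.1 ⟨fun q => x (fam Δ q), fun h0 =>
      hc (congrFun h0 ⟨⟨p, hp⟩, Finset.mem_univ _⟩), ?_⟩
    funext q
    rw [mulVec_eq hΔ]
    exact hx q.1.1 q.1.2

theorem gd_iff_dD {Δ : ZI} (hΔ : Δ ≠ 0) :
    Gd nq (tq ψ8) (PD Δ) ↔ Pool.Agent.D0H10.Q4.dD Δ = 1 := by
  have h1 : (fun π => tq ψ8 (fam Δ π)) = wt (fam Δ) := by
    funext π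
    unfold tq ψ8 wt
    split_ifs with h1 h2 h2
    · rfl
    · norm_num at h2
    · norm_num at h2
    · rfl
  rw [gd_iff_det hΔ, h1]
  have key : ∀ a : ZMod 2, a ≠ 0 ↔ a = 1 := by decide
  exact key _

theorem c2_eq : c2 = ∏' i : ℕ, (1 - (1 / 2 : ℝ) ^ (2 * i + 1)) := rfl

/-- **The exact proportion over `ℚ(i)`.** -/
theorem kden : Pool.Agent.D0H10.Q4.S_KDEN := by
  unfold Pool.Agent.D0H10.Q4.S_KDEN
  rw [← c2_eq]
  refine (den psi8 LT lowT).congr fun X => ?_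
  have h1 : ((SB X).filter fun Δ => ClD LT Δ ∧ Gd nq (tq ψ8) (PD Δ)) =
      (SB X).filter fun Δ => Pool.Agent.D0H10.Q4.dD Δ = 1 := by
    refine filter_congr fun Δ hΔ => ?_
    rw [gd_iff_dD (mem_SB.1 hΔ).2.ne]
    exact and_iff_right (clT Δ)
  have h2 : (SB X).filter (ClD LT) = SB X := filter_true_of_mem fun Δ _ => clT Δ
  rw [h1, h2]

/-- the same in the classes of the norm modulo `16` -/
theorem kdenN {R : Set (ZMod 16)} {r : ℕ} (hr : r = 1 ∨ r = 5 ∨ r = 9 ∨ r = 13)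
    (hR : (r : ZMod 16) ∈ R) : Tendsto (fun X : ℕ =>
    (((SB X).filter fun Δ => ((nrm Δ : ℕ) : ZMod 16) ∈ R ∧
      Pool.Agent.D0H10.Q4.dD Δ = 1).card : ℝ) /
    (((SB X).filter fun Δ => ((nrm Δ : ℕ) : ZMod 16) ∈ R).card : ℝ)) atTop (𝓝 c2) := by
  refine (den psi8 (LN16 R) (lowN hr hR)).congr fun X => ?_
  have h1 : ((SB X).filter fun Δ => ClD (LN16 R) Δ ∧ Gd nq (tq ψ8) (PD Δ)) =
      (SB X).filter fun Δ => ((nrm Δ : ℕ) : ZMod 16) ∈ R ∧ Pool.Agent.D0H10.Q4.dD Δ = 1 := by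
    refine filter_congr fun Δ hΔ => ?_
    rw [gd_iff_dD (mem_SB.1 hΔ).2.ne, clN (mem_SB.1 hΔ).2]
  have h2 : (SB X).filter (ClD (LN16 R)) =
      (SB X).filter fun Δ => ((nrm Δ : ℕ) : ZMod 16) ∈ R :=
    filter_congr fun Δ hΔ => clN (mem_SB.1 hΔ).2
  rw [h1, h2]

end Pool.Agent.D0H45.QK
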