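import Pool.Agent.D0H45.QK.Stm

/-!
# Bilinear sums of quadratic symbols over the Gaussian integers
-/

set_option autoImplicit false

open Finset

namespace Pool.Agent.D0H45.QK

open H385 (ZI im1 nrm)
open Pool.Agent.Y699
open Pool.Agent.Y703.CQ (sg)

open Classical in
/-- real coefficients -/
theorem core : ∃ C : ℝ, 1 ≤ C ∧ ∀ (P Q : Finset ZI) (A B z : ℕ) (c d : ZI → ℝ),
    (∀ π ∈ P, PP π ∧ nrm π ≤ A) → (∀ ρ ∈ Q, PP ρ ∧ nrm ρ ≤ B) →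
    1 ≤ z → z ≤ A → z ≤ B → (∀ π, |c π| ≤ 1) → (∀ ρ, |d ρ| ≤ 1) →
    |∑ π ∈ P, ∑ ρ ∈ Q, c π * d ρ * (jac π ρ : ℝ)| ≤
      2 * C * (A * B) * (z : ℝ) ^ (-(1 / 24) : ℝ) := by
  obtain ⟨C, hC1, hC⟩ := box
  refine ⟨C, hC1, ?_⟩
  intro P Q A B z c d hP hQ hz hzA hzB hc hd
  have hPA : P ⊆ SB A := fun x hx => mem_SB.2 ⟨(hP x hx).2, (hP x hx).1.ps⟩
  have hQB : Q ⊆ SB B := fun x hx => mem_SB.2 ⟨(hQ x hx).2, (hQ x hx).1.ps⟩
  have h1 := hC (fun x => if x ∈ P then c x else 0) (fun y => if y ∈ Q then d y else 0)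
    (fun x => by
      show |if x ∈ P then c x else 0| ≤ 1
      split_ifs
      · exact hc x
      · rw [abs_zero]; exact zero_le_one)
    (fun y => by
      show |if y ∈ Q then d y else 0| ≤ 1
      split_ifs
      · exact hd y
      · rw [abs_zero]; exact zero_le_one) A B (hz.trans hzA) (hz.trans hzB)
  have e1 : Bil (fun x => if x ∈ P then c x else 0) (fun y => if y ∈ Q then d y else 0) A B =
      ∑ π ∈ P, ∑ ρ ∈ Q, c π * d ρ * (jac π ρ : ℝ) := by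
    unfold Bil
    refine (sum_subset hPA fun x _ hx => ?_).symm.trans (sum_congr rfl fun x hx => ?_)
    · refine sum_eq_zero fun y _ => ?_
      show (if x ∈ P then c x else 0) * (if y ∈ Q then d y else 0) * (jac x y : ℝ) = 0
      rw [if_neg hx, zero_mul, zero_mul]
    · refine (sum_subset hQB fun y _ hy => ?_).symm.trans (sum_congr rfl fun y hy => ?_)
      · show (if x ∈ P then c x else 0) * (if y ∈ Q then d y else 0) * (jac x y : ℝ) = 0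
        rw [if_neg hy, mul_zero, zero_mul]
      · show (if x ∈ P then c x else 0) * (if y ∈ Q then d y else 0) * (jac x y : ℝ) = _
        rw [if_pos hx, if_pos hy]
  rw [e1] at h1
  have hz0 : (0 : ℝ) < z := by exact_mod_cast hz
  have hzA' : (z : ℝ) ≤ A := by exact_mod_cast hzA
  have hzB' : (z : ℝ) ≤ B := by exact_mod_cast hzB
  have hA0 : (0 : ℝ) < A := lt_of_lt_of_le hz0 hzA'
  have hB0 : (0 : ℝ) < B := lt_of_lt_of_le hz0 hzB'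
  have h2 : (A : ℝ) ^ (-(1 / 24) : ℝ) ≤ (z : ℝ) ^ (-(1 / 24) : ℝ) :=
    Real.rpow_le_rpow_of_nonpos hz0 hzA' (by norm_num)
  have h3 : (B : ℝ) ^ (-(1 / 24) : ℝ) ≤ (z : ℝ) ^ (-(1 / 24) : ℝ) :=
    Real.rpow_le_rpow_of_nonpos hz0 hzB' (by norm_num)
  refine h1.trans ?_
  have h5 : (A : ℝ) * B * ((A : ℝ) ^ (-(1 / 24) : ℝ) + (B : ℝ) ^ (-(1 / 24) : ℝ)) ≤
      A * B * ((z : ℝ) ^ (-(1 / 24) : ℝ) + (z : ℝ) ^ (-(1 / 24) : ℝ)) :=
    mul_le_mul_of_nonneg_left (add_le_add h2 h3) (by positivity)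
  have h6 := mul_le_mul_of_nonneg_left h5 (by linarith : (0 : ℝ) ≤ C)
  refine h6.trans (le_of_eq ?_)
  ring

theorem sg_nq {π ρ : ZI} (hπ : PP π) (hρ : PP ρ) (h : π ≠ ρ) : sg (nq π ρ) = ((jac π ρ : ℝ) : ℂ) := by
  have hd : ¬ π ∣ ρ := fun hd => h (hπ.eq_of_dvd hρ hd)
  rw [jac_prime hπ]
  unfold nq sg
  rcases qr_cases (π := π) hd with h1 | h1
  · rw [h1]
    norm_num
  · rw [h1]
    norm_num

open Classical in
theorem t_BIL : ∃ C : ℝ, 1 ≤ C ∧ ∀ (P Q : Finset ZI) (A B z : ℕ) (c d : ZI → ℂ),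
    (∀ π ∈ P, PP π ∧ nrm π ≤ A) → (∀ ρ ∈ Q, PP ρ ∧ nrm ρ ≤ B) → Disjoint P Q →
    1 ≤ z → z ≤ A → z ≤ B → (∀ π, ‖c π‖ ≤ 1) → (∀ ρ, ‖d ρ‖ ≤ 1) →
    ‖∑ π ∈ P, ∑ ρ ∈ Q, c π * d ρ * sg (nq π ρ)‖ ^ 24 * z ≤ C * ((A : ℝ) * B) ^ 24 := by
  obtain ⟨C, hC1, hC⟩ := core
  refine ⟨(8 * C) ^ 24, one_le_pow₀ (by linarith), ?_⟩
  intro P Q A B z c d hP hQ hdis hz hzA hzB hc hd
  set q : ℝ := (z : ℝ) ^ (-(1 / 24) : ℝ) with hq
  have hz0 : (0 : ℝ) < z := by exact_mod_cast hz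
  have hq24 : q ^ 24 * z = 1 := by
    rw [hq, ← Real.rpow_natCast, ← Real.rpow_mul hz0.le]
    norm_num
    rw [Real.rpow_neg_one]
    exact inv_mul_cancel₀ hz0.ne'
  -- the real sums
  set F : (ZI → ℝ) → (ZI → ℝ) → ℝ := fun a b => ∑ π ∈ P, ∑ ρ ∈ Q, a π * b ρ * (jac π ρ : ℝ) with hF
  have hFb : ∀ a b : ZI → ℝ, (∀ π, |a π| ≤ 1) → (∀ π, |b π| ≤ 1) → |F a b| ≤ 2 * C * (A * B) * q :=
    fun a b ha hb => hC P Q A B z a b hP hQ hz hzA hzB ha hb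
  have hre : ∀ e : ZI → ℂ, (∀ π, ‖e π‖ ≤ 1) → ∀ π, |(e π).re| ≤ 1 :=
    fun e he π => (Complex.abs_re_le_norm _).trans (he π)
  have him : ∀ e : ZI → ℂ, (∀ π, ‖e π‖ ≤ 1) → ∀ π, |(e π).im| ≤ 1 :=
    fun e he π => (Complex.abs_im_le_norm _).trans (he π)
  have h1 := hFb (fun π => (c π).re) (fun π => (d π).re) (hre c hc) (hre d hd)
  have h2 := hFb (fun π => (c π).im) (fun π => (d π).im) (him c hc) (him d hd)
  have h3 := hFb (fun π => (c π).re) (fun π => (d π).im) (hre c hc) (him d hd)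
  have h4 := hFb (fun π => (c π).im) (fun π => (d π).re) (him c hc) (hre d hd)
  have e1 : ∑ π ∈ P, ∑ ρ ∈ Q, c π * d ρ * sg (nq π ρ) =
      ((F (fun π => (c π).re) (fun π => (d π).re) - F (fun π => (c π).im) (fun π => (d π).im) : ℝ) : ℂ) +
      ((F (fun π => (c π).re) (fun π => (d π).im) + F (fun π => (c π).im) (fun π => (d π).re) : ℝ) : ℂ) *
        Complex.I := by
    have e2 : ∀ π ∈ P, ∀ ρ ∈ Q, c π * d ρ * sg (nq π ρ) =
        (((c π).re * (d ρ).re * (jac π ρ : ℝ) : ℝ) : ℂ) - (((c π).im * (d ρ).im * (jac π ρ : ℝ) : ℝ) : ℂ) +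
        ((((c π).re * (d ρ).im * (jac π ρ : ℝ) : ℝ) : ℂ) +
          (((c π).im * (d ρ).re * (jac π ρ : ℝ) : ℝ) : ℂ)) * Complex.I := by
      intro π hπ ρ hρ
      rw [sg_nq (hP π hπ).1 (hQ ρ hρ).1 (fun h => (Finset.disjoint_left.1 hdis) hπ (h ▸ hρ))]
      apply Complex.ext
      · simp
        ring
      · simp
        ring
    rw [sum_congr rfl fun π hπ => sum_congr rfl fun ρ hρ => e2 π hπ ρ hρ]
    simp only [hF]
    push_cast
    simp only [sum_add_distrib, sum_sub_distrib, ← sum_mul]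
  have e3 : ∀ x y : ℝ, ‖((x : ℝ) : ℂ) + ((y : ℝ) : ℂ) * Complex.I‖ ≤ |x| + |y| := by
    intro x y
    refine (norm_add_le _ _).trans ?_
    rw [norm_mul, Complex.norm_I, mul_one, Complex.norm_real, Complex.norm_real]
    exact le_rfl
  have h5 : ‖∑ π ∈ P, ∑ ρ ∈ Q, c π * d ρ * sg (nq π ρ)‖ ≤ 8 * C * (A * B) * q := by
    rw [e1]
    refine (e3 _ _).trans ?_
    have h6 := abs_sub (F (fun π => (c π).re) (fun π => (d π).re))
      (F (fun π => (c π).im) (fun π => (d π).im))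
    have h7 := abs_add_le (F (fun π => (c π).re) (fun π => (d π).im))
      (F (fun π => (c π).im) (fun π => (d π).re))
    linarith
  have h6 := pow_le_pow_left₀ (norm_nonneg _) h5 24
  calc ‖∑ π ∈ P, ∑ ρ ∈ Q, c π * d ρ * sg (nq π ρ)‖ ^ 24 * z ≤
      (8 * C * (A * B) * q) ^ 24 * z := mul_le_mul_of_nonneg_right h6 hz0.le
    _ = (8 * C) ^ 24 * ((A : ℝ) * B) ^ 24 * (q ^ 24 * z) := by ring
    _ = (8 * C) ^ 24 * ((A : ℝ) * B) ^ 24 := by rw [hq24, mul_one]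

end Pool.Agent.D0H45.QK
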