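import Pool.Agent.D0H45.QK.EQ

/-!
# The count in a box, for symbols on any type

The matrix is the Laplacian of a symmetric symbol `s` plus a function `t` on the diagonal, that is, the
Laplacian of the graph with an extra vertex `∞`. The extra vertex is an additional small index; one of
the large primes is the vertex at which the variables vanish. After the files of projects CQ and SQ
(helpers 657, 911 and 413).
-/

set_option autoImplicit false

open scoped Classical

namespace Pool.Agent.D0H45.QK

open Finset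
open Pool.Agent.Y703.CQ (sg prs ext GdA S_LA c2)
open Pool.Agent.D0H45.QK.EQ (HB)

/-- the kernel of the matrix -/
def Sol {α : Type} (s : α → α → ZMod 2) (t : α → ZMod 2) (S : Finset α) (x : α → ZMod 2) : Prop :=
  ∀ p ∈ S, ∑ q ∈ S, s p q * (x q + x p) + t p * x p = 0

/-- the good sets: the matrix is nonsingular -/
def Gd {α : Type} (s : α → α → ZMod 2) (t : α → ZMod 2) (S : Finset α) : Prop :=
  ∀ x, Sol s t S x → ∀ p ∈ S, x p = 0

/-- the labels of the large primes with respect to the small ones and `∞` are not degenerate -/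
def Nd {α : Type} (s : α → α → ZMod 2) (t : α → ZMod 2) (S₀ S₁ : Finset α) : Prop :=
  ∀ (w : α → ZMod 2) (c : ZMod 2), ((∃ u ∈ S₀, w u ≠ 0) ∨ c ≠ 0) →
    ∃ p ∈ S₁, ∑ u ∈ S₀, w u * s p u + c * t p ≠ 0

variable {α : Type} {s : α → α → ZMod 2} {t : α → ZMod 2}

/-- the type of the labels -/
abbrev Lb (S₀ : Finset α) : Type := (S₀ → ZMod 2) × (S₀ → ZMod 2) × ZMod 2

/-- the label of a prime with respect to the small primes -/
noncomputable def lb (s : α → α → ZMod 2) (t : α → ZMod 2) (S₀ : Finset α) (x : α) : Lb S₀ :=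
  (fun u => s u x, fun u => s x u, t x)

/-- the good labels -/
def LN {ι : Type} (S₀ : Finset α) (β : ι → Lb S₀) : Prop :=
  ∀ (w : S₀ → ZMod 2) (c : ZMod 2), ((∃ u : S₀, w u ≠ 0) ∨ c ≠ 0) →
    ∃ i, ∑ u : S₀, w u * (β i).2.1 u + c * (β i).2.2 ≠ 0

section one
variable {ι : Type} [Fintype ι] [LinearOrder ι] {S₀ : Finset α} {p : ι → α}

/-- extension by zero -/
noncomputable def ez0 {S₀ : Finset α} (v : S₀ → ZMod 2) (n : α) : ZMod 2 :=
  if h : n ∈ S₀ then v ⟨n, h⟩ else 0

theorem ez0_coe {S₀ : Finset α} (v : S₀ → ZMod 2) (u : S₀) : ez0 v u = v u := by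
  unfold ez0
  rw [dif_pos u.2]

omit [LinearOrder ι] in
theorem nd_iff : Nd s t S₀ (univ.image p) ↔ LN S₀ (fun i => lb s t S₀ (p i)) := by
  unfold Nd LN
  constructor
  · intro h w c hw
    obtain ⟨x, hx, hx2⟩ := h (ez0 w) c (by
      rcases hw with ⟨u, hu⟩ | hc
      · exact Or.inl ⟨u, u.2, by rw [ez0_coe]; exact hu⟩
      · exact Or.inr hc)
    rw [Finset.mem_image] at hx
    obtain ⟨i, -, rfl⟩ := hx
    refine ⟨i, ?_⟩
    rw [← Finset.sum_coe_sort S₀] at hx2
    intro h0
    apply hx2
    rw [← h0]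
    congr 1
    refine Finset.sum_congr rfl fun u _ => ?_
    rw [ez0_coe]
    rfl
  · intro h w c hw
    obtain ⟨i, hi2⟩ := h (fun u => w u) c (by
      rcases hw with ⟨u, hu0, hu⟩ | hc
      · exact Or.inl ⟨⟨u, hu0⟩, hu⟩
      · exact Or.inr hc)
    refine ⟨p i, Finset.mem_image_of_mem _ (Finset.mem_univ _), ?_⟩
    rw [← Finset.sum_coe_sort S₀]
    exact hi2

omit [LinearOrder ι] in
theorem sum_un (hp : Function.Injective p) (hd : ∀ i, p i ∉ S₀) (f : α → ZMod 2) :
    ∑ x ∈ S₀ ∪ univ.image p, f x = ∑ u : S₀, f u + ∑ l, f (p l) := by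
  rw [Finset.sum_union, Finset.sum_image (fun a _ b _ h => hp h), ← Finset.sum_coe_sort S₀]
  rw [Finset.disjoint_left]
  intro x hx hx'
  rw [Finset.mem_image] at hx'
  obtain ⟨i, -, rfl⟩ := hx'
  exact hd i hx

theorem ext_sum {J1 : Finset ι} {P : α → Prop} (hs : ∀ p q, P p → P q → s p q = s q p)
    (hs0 : ∀ p, P p → s p p = 0) (hpr : ∀ i, P (p i))
    (k : ι) (hk : k ∈ J1) (y : ι → ZMod 2) (yk : ZMod 2) :
    ∑ l, Pool.Agent.Y703.CQ.ext (fun e : prs J1 => s (p e.1.1) (p e.1.2)) k l * (y l + yk) =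
      ∑ l, s (p k) (p l) * (y l + yk) := by
  refine Finset.sum_congr rfl fun l _ => ?_
  congr 1
  unfold Pool.Agent.Y703.CQ.ext
  by_cases h : (k, l) ∈ prs J1
  · rw [dif_pos h]
  · rw [dif_neg h]
    by_cases hlk : l = k
    · subst hlk
      rw [dif_neg (fun h' => h h'.1), hs0 _ (hpr _)]
    · have h1 : l ∈ J1 ∧ ¬ k < l := by
        by_contra hcon
        apply h
        unfold prs
        refine Finset.mem_filter.2 ⟨Finset.mem_univ _, hk, hlk, fun hl => ?_⟩
        by_contra hkl
        exact hcon ⟨hl, hkl⟩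
      have h2 : (l, k) ∈ prs J1 := by
        unfold prs
        exact Finset.mem_filter.2 ⟨Finset.mem_univ _, h1.1, fun h => hlk h.symm,
          fun _ => lt_of_le_of_ne (not_lt.1 h1.2) hlk⟩
      rw [dif_pos ⟨h2, hk⟩]
      exact hs _ _ (hpr l) (hpr k)

end one

/-- the symbols of the small indices, with the extra one -/
noncomputable def mA (s : α → α → ZMod 2) (t : α → ZMod 2) {S₀ : Finset α} :
    Option S₀ → Option S₀ → ZMod 2
  | some u, some v => s u v
  | some u, none => t u
  | none, some v => t v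
  | none, none => 0

/-- the symbols of the small and the large indices -/
noncomputable def mB {S₀ : Finset α} {ι : Type} (β : ι → Lb S₀) : Option S₀ → ι → ZMod 2
  | some u, l => (β l).1 u
  | none, l => (β l).2.2

/-- the symbols of the large and the small indices -/
noncomputable def mC {S₀ : Finset α} {ι : Type} (β : ι → Lb S₀) : ι → Option S₀ → ZMod 2
  | k, some u => (β k).2.1 u
  | k, none => (β k).2.2

/-- the left hand side of an equation -/
noncomputable def lh (s : α → α → ZMod 2) (t : α → ZMod 2) (S : Finset α) (x : α → ZMod 2) (p : α) :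
    ZMod 2 :=
  ∑ q ∈ S, s p q * (x q + x p) + t p * x p

theorem two_add (a : ZMod 2) : a + a = 0 := by
  have : ∀ a : ZMod 2, a + a = 0 := by decide
  exact this a

/-- the sum of the equations -/
theorem sum_lh {P : α → Prop} (hs : ∀ p q, P p → P q → s p q = s q p) (S : Finset α)
    (hS : ∀ p ∈ S, P p) (x : α → ZMod 2) :
    ∑ p ∈ S, lh s t S x p = ∑ p ∈ S, t p * x p := by
  unfold lh
  rw [Finset.sum_add_distrib]
  have h1 : ∑ p ∈ S, ∑ q ∈ S, s p q * (x q + x p) = 0 := by
    have h2 : ∀ p ∈ S, ∑ q ∈ S, s p q * (x q + x p) =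
        ∑ q ∈ S, s p q * x q + ∑ q ∈ S, s p q * x p := by
      intro p _
      rw [← Finset.sum_add_distrib]
      exact Finset.sum_congr rfl fun q _ => by ring
    rw [Finset.sum_congr rfl h2, Finset.sum_add_distrib]
    have h3 : ∑ p ∈ S, ∑ q ∈ S, s p q * x q = ∑ p ∈ S, ∑ q ∈ S, s p q * x p := by
      rw [Finset.sum_comm]
      refine Finset.sum_congr rfl fun q hq => Finset.sum_congr rfl fun p hp => ?_
      rw [hs p q (hS p hp) (hS q hq)]
    rw [h3]
    exact two_add _
  rw [h1, zero_add]

section two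
variable {ι : Type} [Fintype ι] [LinearOrder ι] {S₀ : Finset α} {p : ι → α}

omit [LinearOrder ι] in
/-- the equation of a small prime -/
theorem eq_u (hp : Function.Injective p) (hd : ∀ i, p i ∉ S₀) (x : α → ZMod 2) (r : ZMod 2)
    (X : Option S₀ → ZMod 2) (Y : ι → ZMod 2) (hX : ∀ u : S₀, X (some u) = x u + r)
    (hX0 : X none = r) (hY : ∀ l, Y l = x (p l) + r) (u : S₀) :
    ∑ v, mA s t (some u) v * (X v + X (some u)) +
      ∑ l, mB (fun i => lb s t S₀ (p i)) (some u) l * (Y l + X (some u)) + 0 * X (some u) =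
      lh s t (S₀ ∪ univ.image p) x u := by
  unfold lh
  rw [sum_un hp hd, Fintype.sum_option]
  simp only [mA, mB, lb, hX, hX0, hY, zero_mul, add_zero]
  have e1 : ∀ a : ZMod 2, a + r + (x u + r) = a + x u := by
    intro a
    have : ∀ a b c : ZMod 2, a + b + (c + b) = a + c := by decide
    exact this _ _ _
  have e2 : r + (x u + r) = x u := by
    have : ∀ b c : ZMod 2, b + (c + b) = c := by decide
    exact this _ _
  simp only [e1, e2]
  ring

/-- the equation of a large prime -/
theorem eq_k {J1 : Finset ι} (hp : Function.Injective p)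
    {P : α → Prop} (hs : ∀ p q, P p → P q → s p q = s q p)
    (hs0 : ∀ p, P p → s p p = 0) (hpr : ∀ i, P (p i))
    (hd : ∀ i, p i ∉ S₀) (x : α → ZMod 2) (r : ZMod 2)
    (X : Option S₀ → ZMod 2) (Y : ι → ZMod 2) (hX : ∀ u : S₀, X (some u) = x u + r)
    (hX0 : X none = r) (hY : ∀ l, Y l = x (p l) + r) (k : ι) (hk : k ∈ J1) :
    ∑ v, mC (fun i => lb s t S₀ (p i)) k v * (X v + Y k) +
      ∑ l, Pool.Agent.Y703.CQ.ext (fun e : prs J1 => s (p e.1.1) (p e.1.2)) k l * (Y l + Y k) +
        0 * Y k = lh s t (S₀ ∪ univ.image p) x (p k) := by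
  unfold lh
  rw [sum_un hp hd, Fintype.sum_option, ext_sum hs hs0 hpr k hk]
  simp only [mC, lb, hX, hX0, hY, zero_mul, add_zero]
  have e1 : ∀ a : ZMod 2, a + r + (x (p k) + r) = a + x (p k) := by
    intro a
    have : ∀ a b c : ZMod 2, a + b + (c + b) = a + c := by decide
    exact this _ _ _
  have e2 : r + (x (p k) + r) = x (p k) := by
    have : ∀ b c : ZMod 2, b + (c + b) = c := by decide
    exact this _ _
  simp only [e1, e2]
  ring

omit [LinearOrder ι] in
/-- the equation of the extra vertex -/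
theorem eq_0 (hp : Function.Injective p) (hd : ∀ i, p i ∉ S₀) (x : α → ZMod 2) (r : ZMod 2)
    (X : Option S₀ → ZMod 2) (Y : ι → ZMod 2) (hX : ∀ u : S₀, X (some u) = x u + r)
    (hX0 : X none = r) (hY : ∀ l, Y l = x (p l) + r) :
    ∑ v, mA s t none v * (X v + X none) +
      ∑ l, mB (fun i => lb s t S₀ (p i)) none l * (Y l + X none) + 0 * X none =
      ∑ q ∈ S₀ ∪ univ.image p, t q * x q := by
  rw [sum_un hp hd, Fintype.sum_option]
  simp only [mA, mB, lb, hX, hX0, hY, zero_mul, add_zero, zero_add]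
  have e1 : ∀ a : ZMod 2, a + r + r = a := by
    intro a
    have : ∀ a b : ZMod 2, a + b + b = a := by decide
    exact this _ _
  simp only [e1]

theorem gd_iff {P : α → Prop} (hs : ∀ p q, P p → P q → s p q = s q p)
    (hs0 : ∀ p, P p → s p p = 0) (hp : Function.Injective p) (hpr : ∀ i, P (p i))
    (h₀ : ∀ u ∈ S₀, P u) (hd : ∀ i, p i ∉ S₀) (i₀ : ι) :
    Gd s t (S₀ ∪ univ.image p) ↔ GdA (univ : Finset (Option S₀)) (univ.erase i₀)
      (mA s t) (mB fun i => lb s t S₀ (p i)) (mC fun i => lb s t S₀ (p i))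
      (Pool.Agent.Y703.CQ.ext fun e : prs (univ.erase i₀) => s (p e.1.1) (p e.1.2))
      (fun _ => 0) (fun _ => 0) := by
  have hS : ∀ q ∈ S₀ ∪ univ.image p, P q := by
    intro q hq
    rw [Finset.mem_union, Finset.mem_image] at hq
    rcases hq with hq | ⟨k, -, rfl⟩
    · exact h₀ q hq
    · exact hpr k
  have hsum := sum_lh (t := t) hs _ hS
  unfold Gd GdA
  constructor
  · intro h X Y _ hY0 h1 h2
    set r := X none with hr
    set x : α → ZMod 2 := fun n => if h : n ∈ S₀ then X (some ⟨n, h⟩) + r else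
      if h : ∃ l, p l = n then Y h.choose + r else 0 with hx
    have e1 : ∀ u : S₀, X (some u) = x u + r := by
      intro u
      simp only [hx]
      rw [dif_pos u.2, add_assoc, two_add, add_zero]
    have e2 : ∀ l, Y l = x (p l) + r := by
      intro l
      have hex : ∃ l', p l' = p l := ⟨l, rfl⟩
      simp only [hx]
      rw [dif_neg (hd l), dif_pos hex, add_assoc, two_add, add_zero]
      exact congrArg Y (hp hex.choose_spec).symm
    have g1 : ∀ u : S₀, lh s t (S₀ ∪ univ.image p) x u = 0 := by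
      intro u
      rw [← eq_u hp hd x r X Y e1 hr.symm e2 u]
      exact h1 (some u) (Finset.mem_univ _)
    have g2 : ∀ k, k ≠ i₀ → lh s t (S₀ ∪ univ.image p) x (p k) = 0 := by
      intro k hk
      have hk' : k ∈ (univ.erase i₀ : Finset ι) := Finset.mem_erase.2 ⟨hk, Finset.mem_univ _⟩
      rw [← eq_k hp hs hs0 hpr hd x r X Y e1 hr.symm e2 k hk']
      exact h2 k hk'
    have g0 : ∑ q ∈ S₀ ∪ univ.image p, t q * x q = 0 := by
      rw [← eq_0 hp hd x r X Y e1 hr.symm e2]
      exact h1 none (Finset.mem_univ _)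
    have g3 : lh s t (S₀ ∪ univ.image p) x (p i₀) = 0 := by
      have h3 := hsum x
      rw [g0, sum_un hp hd] at h3
      rw [Finset.sum_eq_zero fun u _ => g1 u, zero_add,
        Finset.sum_eq_single i₀ (fun k _ hk => g2 k hk)
          (fun h => absurd (Finset.mem_univ _) h)] at h3
      exact h3
    have hsol : Sol s t (S₀ ∪ univ.image p) x := by
      intro q hq
      rw [Finset.mem_union, Finset.mem_image] at hq
      rcases hq with hq | ⟨k, -, rfl⟩
      · exact g1 ⟨q, hq⟩
      · by_cases hk : k = i₀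
        · rw [hk]
          exact g3
        · exact g2 k hk
    have h3 := h x hsol
    have hxl : ∀ l, x (p l) = 0 := fun l =>
      h3 _ (Finset.mem_union_right _ (Finset.mem_image_of_mem _ (Finset.mem_univ _)))
    have hr0 : r = 0 := by
      have h4 := e2 i₀
      rw [hY0 i₀ (Finset.notMem_erase _ _), hxl, zero_add] at h4
      exact h4.symm
    refine ⟨fun u => ?_, fun l => ?_⟩
    · rcases u with _ | u
      · exact hr0
      · rw [e1, hr0, h3 _ (Finset.mem_union_left _ u.2), add_zero]
    · rw [e2, hxl, hr0, add_zero]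
  · intro h x hx
    set r := x (p i₀) with hr
    have g0 : ∑ q ∈ S₀ ∪ univ.image p, t q * x q = 0 := by
      rw [← hsum x]
      exact Finset.sum_eq_zero fun q hq => hx q hq
    obtain ⟨ht1, ht2⟩ := h (fun o => match o with
      | some u => x u + r
      | none => r) (fun l => x (p l) + r)
      (fun u hu => absurd (Finset.mem_univ _) hu)
      (fun k hk => by
        have hk' : k = i₀ := by
          by_contra hne
          exact hk (Finset.mem_erase.2 ⟨hne, Finset.mem_univ _⟩)
        rw [hk', ← hr]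
        exact two_add r)
      (fun u _ => by
        rcases u with _ | u
        · have h3 := eq_0 (s := s) (t := t) hp hd x r (fun o => match o with
            | some u => x u + r
            | none => r) (fun l => x (p l) + r) (fun _ => rfl) rfl (fun _ => rfl)
          rw [g0] at h3
          exact h3
        · have h3 := eq_u (s := s) (t := t) hp hd x r (fun o => match o with
            | some u => x u + r
            | none => r) (fun l => x (p l) + r) (fun _ => rfl) rfl (fun _ => rfl) u
          exact h3.trans (hx u (Finset.mem_union_left _ u.2)))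
      (fun k hk => by
        have h3 := eq_k (t := t) hp hs hs0 hpr hd x r (fun o => match o with
            | some u => x u + r
            | none => r) (fun l => x (p l) + r) (fun _ => rfl) rfl (fun _ => rfl) k hk
        exact h3.trans (hx (p k)
          (Finset.mem_union_right _ (Finset.mem_image_of_mem _ (Finset.mem_univ _)))))
    have hr0 : r = 0 := ht1 none
    intro y hy
    rw [Finset.mem_union, Finset.mem_image] at hy
    rcases hy with hy | ⟨k, -, rfl⟩
    · have h3 := ht1 (some ⟨y, hy⟩)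
      simp only [hr0, add_zero] at h3
      exact h3
    · have h3 := ht2 k
      simp only [hr0, add_zero] at h3
      exact h3

end two

theorem HB_sub {ι : Type} {J1 : Finset ι} {C : ι → Finset α} {X : ι → ℕ} {κ : ℝ}
    (h : HB s J1 C X κ) (P : ι → α → Prop) [∀ i, DecidablePred (P i)] :
    HB s J1 (fun i => (C i).filter (P i)) X κ := by
  intro i l hil hi c d hc hd
  have h1 := h i l hil hi (fun x => if P i x then c x else 0) (fun y => if P l y then d y else 0)
    (fun x => by
      split_ifs
      · exact hc x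
      · simp) (fun y => by
      split_ifs
      · exact hd y
      · simp)
  refine (le_of_eq ?_).trans h1
  congr 1
  rw [Finset.sum_filter]
  refine Finset.sum_congr rfl fun x _ => ?_
  by_cases hx : P i x
  · rw [if_pos hx, Finset.sum_filter]
    refine Finset.sum_congr rfl fun y _ => ?_
    by_cases hy : P l y
    · rw [if_pos hy, if_pos hx, if_pos hy]
    · rw [if_neg hy, if_neg hy, mul_zero, zero_mul]
  · rw [if_neg hx]
    symm
    refine Finset.sum_eq_zero fun y _ => ?_
    rw [if_neg hx, zero_mul, zero_mul]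

theorem HB_mono {ι : Type} {J1 J2 : Finset ι} {C : ι → Finset α} {X : ι → ℕ} {κ : ℝ}
    (h : HB s J2 C X κ) (hJ : J1 ⊆ J2) : HB s J1 C X κ :=
  fun i l hil hi => h i l hil (hJ hi)

/-- more vectors than dimensions: one of them can be left out -/
theorem drop_one {S₀ : Finset α} {ι : Type} [Fintype ι] (β : ι → Lb S₀) (h : LN S₀ β)
    (hc : S₀.card + 1 < Fintype.card ι) :
    ∃ i₀ : ι, ∀ (w : S₀ → ZMod 2) (c : ZMod 2), ((∃ u : S₀, w u ≠ 0) ∨ c ≠ 0) →
      ∃ i, i ≠ i₀ ∧ ∑ u : S₀, w u * (β i).2.1 u + c * (β i).2.2 ≠ 0 := by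
  -- a relation between the vectors
  obtain ⟨g₁, g₂, hne, hg⟩ : ∃ g₁ g₂ : ι → ZMod 2, g₁ ≠ g₂ ∧
      (fun o : Option S₀ => ∑ i, g₁ i * (match o with
        | some u => (β i).2.1 u
        | none => (β i).2.2)) = (fun o : Option S₀ => ∑ i, g₂ i * (match o with
        | some u => (β i).2.1 u
        | none => (β i).2.2)) := by
    refine Fintype.exists_ne_map_eq_of_card_lt (fun (g : ι → ZMod 2) (o : Option S₀) =>
      ∑ i, g i * (match o with
        | some u => (β i).2.1 u
        | none => (β i).2.2)) ?_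
    rw [Fintype.card_fun, Fintype.card_fun, ZMod.card, Fintype.card_option, Fintype.card_coe]
    exact Nat.pow_lt_pow_right (by norm_num) hc
  obtain ⟨i₀, hi₀⟩ : ∃ i, g₁ i ≠ g₂ i := by
    by_contra hcon
    push Not at hcon
    exact hne (funext hcon)
  refine ⟨i₀, fun w c hw => ?_⟩
  by_contra hcon
  push Not at hcon
  obtain ⟨k, hk⟩ := h w c hw
  have hki : k = i₀ := by
    by_contra hki
    exact hk (hcon k hki)
  subst hki
  apply hk
  -- pair the relation with the functional
  have e1 : ∑ i, (g₁ i - g₂ i) * (∑ u : S₀, w u * (β i).2.1 u + c * (β i).2.2) = 0 := by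
    have a1 : ∀ u : S₀, ∑ i, (g₁ i - g₂ i) * (β i).2.1 u = 0 := by
      intro u
      have := congrFun hg (some u)
      simp only at this
      simp only [sub_mul, Finset.sum_sub_distrib]
      rw [this, sub_self]
    have a2 : ∑ i, (g₁ i - g₂ i) * (β i).2.2 = 0 := by
      have := congrFun hg none
      simp only at this
      simp only [sub_mul, Finset.sum_sub_distrib]
      rw [this, sub_self]
    have a3 : ∑ i, (g₁ i - g₂ i) * (∑ u : S₀, w u * (β i).2.1 u + c * (β i).2.2) =
        ∑ u : S₀, w u * (∑ i, (g₁ i - g₂ i) * (β i).2.1 u) +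
          c * ∑ i, (g₁ i - g₂ i) * (β i).2.2 := by
      simp only [mul_add, Finset.sum_add_distrib, Finset.mul_sum]
      rw [Finset.sum_comm]
      congr 1
      · refine Finset.sum_congr rfl fun u _ => Finset.sum_congr rfl fun i _ => by ring
      · refine Finset.sum_congr rfl fun i _ => by ring
    rw [a3, a2, mul_zero, add_zero]
    exact Finset.sum_eq_zero fun u _ => by rw [a1, mul_zero]
  rw [Finset.sum_eq_single k (fun i _ hi => by rw [hcon i hi, mul_zero])
    (fun h => absurd (Finset.mem_univ _) h)] at e1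
  have h1 : g₁ k - g₂ k = 1 := by
    have key : ∀ a b : ZMod 2, a ≠ b → a - b = 1 := by decide
    exact key _ _ hi₀
  rw [h1, one_mul] at e1
  exact e1

theorem prs_card {ι : Type} [Fintype ι] [LinearOrder ι] (J1 : Finset ι) :
    (prs J1).card ≤ Fintype.card ι * Fintype.card ι := by
  unfold prs
  refine (Finset.card_filter_le _ _).trans ?_
  rw [Finset.card_univ, Fintype.card_prod]

/-- **The count in a box.** -/
theorem t_BOX {P : α → Prop} (hs : ∀ p q, P p → P q → s p q = s q p)
    (hs0 : ∀ p, P p → s p p = 0) (hLA : S_LA) (ι : Type) [Fintype ι] [LinearOrder ι]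
    (C : ι → Finset α) (X : ι → ℕ) (κ : ℝ) (S₀ : Finset α) (hκ : 0 ≤ κ)
    (hCX : ∀ i, (C i).card ≤ X i) (hHB : HB s univ C X κ) (hS₀ : ∀ u ∈ S₀, P u)
    (hC : ∀ i, ∀ p ∈ C i, P p ∧ p ∉ S₀) (hdis : ∀ i l, i ≠ l → Disjoint (C i) (C l))
    (hcard : S₀.card + 1 < Fintype.card ι) :
    |(((Fintype.piFinset C).filter fun p => Nd s t S₀ (univ.image p) ∧
        Gd s t (S₀ ∪ univ.image p)).card : ℝ) -
      c2 * (((Fintype.piFinset C).filter fun p => Nd s t S₀ (univ.image p)).card : ℝ)| ≤
    2 * (4 ^ (S₀.card + 1) / 2 ^ (Fintype.card ι - 1)) *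
      (((Fintype.piFinset C).filter fun p => Nd s t S₀ (univ.image p)).card : ℝ) +
    2 ^ ((2 * S₀.card + 1) * Fintype.card ι + Fintype.card ι * Fintype.card ι) *
      (κ * ∏ j, (X j : ℝ)) := by
  set cc : ℝ := 2 * (4 ^ (S₀.card + 1) / 2 ^ (Fintype.card ι - 1)) with hcc
  set R : ℝ := 2 ^ (Fintype.card ι * Fintype.card ι) * (κ * ∏ j, (X j : ℝ)) with hR
  have hcc0 : 0 ≤ cc := by positivity
  have hX0 : 0 ≤ κ * ∏ j, (X j : ℝ) :=
    mul_nonneg hκ (Finset.prod_nonneg fun j _ => by positivity)
  have hR0 : 0 ≤ R := mul_nonneg (by positivity) hX0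
  have hRp : ∀ J1 : Finset ι, (2 : ℝ) ^ (prs J1).card * (κ * ∏ j, (X j : ℝ)) ≤ R := by
    intro J1
    rw [hR]
    exact mul_le_mul_of_nonneg_right (pow_le_pow_right₀ (by norm_num) (prs_card J1)) hX0
  -- facts on tuples
  have hinj : ∀ p ∈ Fintype.piFinset C, Function.Injective p := by
    intro p hp i j hij
    rw [Fintype.mem_piFinset] at hp
    by_contra hne
    have h1 := Finset.disjoint_left.1 (hdis i j hne) (hp i)
    rw [hij] at h1
    exact h1 (hp j)
  have hd : ∀ p ∈ Fintype.piFinset C, ∀ i, p i ∉ S₀ := by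
    intro p hp i
    rw [Fintype.mem_piFinset] at hp
    exact (hC i _ (hp i)).2
  have hpr : ∀ p ∈ Fintype.piFinset C, ∀ i, P (p i) := by
    intro p hp i
    rw [Fintype.mem_piFinset] at hp
    exact (hC i _ (hp i)).1
  have hU1 : (univ : Finset (Option S₀)).card = S₀.card + 1 := by
    rw [Finset.card_univ, Fintype.card_option, Fintype.card_coe]
  -- the part with given labels
  have h1 : ∀ β : ι → Lb S₀, LN S₀ β →
      |(((Fintype.piFinset C).filter fun p => (fun i => lb s t S₀ (p i)) = β ∧
          Gd s t (S₀ ∪ univ.image p)).card : ℝ) -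
        c2 * (((Fintype.piFinset C).filter fun p => (fun i => lb s t S₀ (p i)) = β).card : ℝ)| ≤
      cc * (((Fintype.piFinset C).filter fun p => (fun i => lb s t S₀ (p i)) = β).card : ℝ) + R := by
    intro β hβ
    by_cases hemp : ((Fintype.piFinset C).filter fun p => (fun i => lb s t S₀ (p i)) = β) = ∅
    · have he2 : ((Fintype.piFinset C).filter fun p => (fun i => lb s t S₀ (p i)) = β ∧
          Gd s t (S₀ ∪ univ.image p)) = ∅ := by
        rw [← Finset.filter_filter, hemp, Finset.filter_empty]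
      rw [he2, hemp]
      simpa using hR0
    obtain ⟨p₀, hp₀⟩ := Finset.nonempty_iff_ne_empty.2 hemp
    rw [Finset.mem_filter] at hp₀
    obtain ⟨hp₀, hp₀β⟩ := hp₀
    set C' : ι → Finset α := fun i => (C i).filter fun q => lb s t S₀ q = β i with hC'
    have hpi : (Fintype.piFinset C).filter (fun p => (fun i => lb s t S₀ (p i)) = β) =
        Fintype.piFinset C' := by
      ext p
      simp only [Finset.mem_filter, Fintype.mem_piFinset, hC']
      constructor
      · rintro ⟨h2, h3⟩ i
        exact ⟨h2 i, congrFun h3 i⟩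
      · intro h2
        exact ⟨fun i => (h2 i).1, funext fun i => (h2 i).2⟩
    obtain ⟨i₀, hi₀⟩ := drop_one β hβ hcard
    set J1 : Finset ι := univ.erase i₀ with hJ1
    have hJc : J1.card = Fintype.card ι - 1 := by
      rw [hJ1, Finset.card_erase_of_mem (Finset.mem_univ _), Finset.card_univ]
    have hHB1 : HB s J1 C X κ := HB_mono hHB (Finset.subset_univ _)
    have h2 := hLA (Option S₀) ι (univ : Finset (Option S₀)) J1
      ⟨i₀, Finset.notMem_erase _ _⟩ (mA s t) (mB β) (mC β) (fun _ => 0) (fun _ => 0)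
      (by
        intro u _ v _
        rcases u with _ | u <;> rcases v with _ | v
        · rfl
        · rfl
        · rfl
        · exact hs _ _ (hS₀ u u.2) (hS₀ v v.2))
      (by
        intro u _ k _
        rcases u with _ | u
        · rfl
        · show (β k).1 u = (β k).2.1 u
          have h3 := congrFun hp₀β k
          rw [← h3]
          exact hs _ _ (hS₀ u u.2) (hpr p₀ hp₀ k))
      (by
        rintro w - ⟨u, hu⟩
        obtain ⟨k, hk, hk2⟩ := hi₀ (fun u => w (some u)) (w none) (by
          rcases u with _ | u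
          · exact Or.inr hu
          · exact Or.inl ⟨u, hu⟩)
        refine ⟨k, Finset.mem_erase.2 ⟨hk, Finset.mem_univ _⟩, ?_⟩
        rw [Fintype.sum_option, add_comm]
        exact hk2)
    set Q : (prs J1 → ZMod 2) → Prop := fun α => GdA (univ : Finset (Option S₀))
      J1 (mA s t) (mB β) (mC β) (Pool.Agent.Y703.CQ.ext α) (fun _ => 0) (fun _ => 0) with hQ
    have h3 := EQ.t_EQ s ι J1 C' X κ hκ
      (fun i => (Finset.card_le_card (Finset.filter_subset _ _)).trans (hCX i))
      (HB_sub hHB1 fun i q => lb s t S₀ q = β i) Q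
    have h4 : ((Fintype.piFinset C).filter fun p => (fun i => lb s t S₀ (p i)) = β ∧
        Gd s t (S₀ ∪ univ.image p)) = ((Fintype.piFinset C').filter fun p =>
          Q fun e => s (p e.1.1) (p e.1.2)) := by
      rw [← hpi, Finset.filter_filter]
      refine Finset.filter_congr fun p hp => ?_
      refine and_congr_right fun hl => ?_
      rw [gd_iff hs hs0 (hinj p hp) (hpr p hp) hS₀ (hd p hp) i₀]
      subst hl
      exact Iff.rfl
    have h5 : (((Fintype.piFinset C').card : ℕ) : ℝ) = ∏ j, ((C' j).card : ℝ) := by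
      rw [Fintype.card_piFinset]
      push_cast
      rfl
    rw [h4, hpi, h5]
    have h2' : |((univ.filter Q).card : ℝ) / 2 ^ (prs J1).card - c2| ≤ cc := by
      refine h2.trans (le_of_eq ?_)
      rw [hcc, hU1, hJc]
    set n : ℝ := (((Fintype.piFinset C').filter fun p =>
          Q fun e => s (p e.1.1) (p e.1.2)).card : ℝ) with hn
    set q : ℝ := ((univ.filter Q).card : ℝ) / 2 ^ (prs J1).card with hq
    set P : ℝ := ∏ j, ((C' j).card : ℝ) with hP
    have hP0 : 0 ≤ P := Finset.prod_nonneg fun j _ => by positivity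
    have h6 : |n - c2 * P| ≤ |n - q * P| + |q - c2| * P := by
      have h7 : n - c2 * P = (n - q * P) + (q - c2) * P := by ring
      have h8 : |(q - c2) * P| = |q - c2| * P := by rw [abs_mul, abs_of_nonneg hP0]
      rw [h7, ← h8]
      exact abs_add_le _ _
    have h7 : |q - c2| * P ≤ cc * P := mul_le_mul_of_nonneg_right h2' hP0
    have h8 : |n - q * P| ≤ R := le_trans h3 (hRp J1)
    linarith
  -- sum over the labels
  set LL := univ.filter (fun β : ι → Lb S₀ => LN S₀ β) with hLL
  have hfib : ∀ W : (ι → α) → Prop,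
      (((Fintype.piFinset C).filter fun p => Nd s t S₀ (univ.image p) ∧ W p).card : ℝ) =
      ∑ β ∈ LL, (((Fintype.piFinset C).filter fun p =>
        (fun i => lb s t S₀ (p i)) = β ∧ W p).card : ℝ) := by
    intro W
    rw [Finset.card_eq_sum_card_fiberwise (f := fun (p : ι → α) (i : ι) => lb s t S₀ (p i))
      (t := LL) (by
        intro p hp
        rw [Finset.mem_coe, Finset.mem_filter] at hp
        rw [Finset.mem_coe, hLL, Finset.mem_filter]
        exact ⟨Finset.mem_univ _, nd_iff.1 hp.2.1⟩)]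
    push_cast
    refine Finset.sum_congr rfl fun β hβ => ?_
    rw [hLL, Finset.mem_filter] at hβ
    congr 2
    ext p
    simp only [Finset.mem_filter]
    constructor
    · rintro ⟨⟨h3, h4, h4'⟩, h5⟩
      exact ⟨h3, h5, h4'⟩
    · rintro ⟨h3, h4, h5⟩
      refine ⟨⟨h3, ?_, h5⟩, h4⟩
      rw [nd_iff, h4]
      exact hβ.2
  have hf1 := hfib fun p => Gd s t (S₀ ∪ univ.image p)
  have hf2 := hfib fun _ => True
  simp only [and_true] at hf2
  rw [hf1, hf2, Finset.mul_sum, ← Finset.sum_sub_distrib]
  refine (Finset.abs_sum_le_sum_abs _ _).trans ?_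
  refine (Finset.sum_le_sum fun β hβ => h1 β (Finset.mem_filter.1 hβ).2).trans ?_
  rw [Finset.sum_add_distrib, ← Finset.mul_sum, Finset.sum_const, nsmul_eq_mul]
  have h5 : ((LL.card : ℕ) : ℝ) ≤ 2 ^ ((2 * S₀.card + 1) * Fintype.card ι) := by
    have h6 : LL.card ≤ Fintype.card (ι → Lb S₀) := Finset.card_le_univ _
    rw [Fintype.card_fun, Fintype.card_prod, Fintype.card_prod, Fintype.card_fun, ZMod.card,
      Fintype.card_coe, ← pow_succ, ← pow_add, ← pow_mul] at h6
    have h7 : (S₀.card + (S₀.card + 1)) * Fintype.card ι = (2 * S₀.card + 1) * Fintype.card ι := by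
      ring
    rw [h7] at h6
    exact_mod_cast h6
  have h6 := mul_le_mul_of_nonneg_right h5 hR0
  rw [pow_add, mul_assoc]
  linarith

end Pool.Agent.D0H45.QK
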