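import Pool.Agent.D0H45.QK.Cnt
import Pool.Agent.Y495.CX.FEW

/-!
# Few sets have few large primes, or degenerate labels

After the files of helper433 (project XK).
-/

set_option autoImplicit false

open scoped Classical

namespace Pool.Agent.D0H45.QK

open Finset Filter
open H385 (ZI im1 nrm)
open Pool.Agent.Y699 hiding XX kk
open Pool.Agent.Y703.CX (eL zz kk)
open Pool.Agent.Y495.CX.Few (PN mert eL_tendsto log_small zz_ge loglog_zz rpow_eq)
open Pool.Agent.H304R2.EC.A1 (prim)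

variable {L : Cls}

/-- the product of the norms -/
noncomputable def pN (S : Finset ZI) : ℕ := ∏ π ∈ S, nrm π

theorem pN_pos {S : Finset ZI} (h : ∀ π ∈ S, PP π) : 0 < pN S :=
  Finset.prod_pos fun π hπ => nrm_pos' (h π hπ).ne

theorem eulerE (P : Finset ZI) (w : ZI → ℝ) (hw : ∀ p ∈ P, 0 ≤ w p) :
    ∑ S ∈ P.powerset, ∏ p ∈ S, w p ≤ Real.exp (∑ p ∈ P, w p) := by
  rw [← Finset.prod_one_add, Real.exp_sum]
  refine prod_le_prod (fun p hp => by have := hw p hp; linarith) fun p _ => ?_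
  have := Real.add_one_le_exp (w p)
  linarith

/-- Mertens' theorem, upper bound -/
theorem M_le : ∃ C : ℝ, 0 ≤ C ∧ ∀ N : ℕ, 3 ≤ N →
    ∑ π ∈ QB N, (1 : ℝ) / nrm π ≤ 2 * Real.log (Real.log N) + C := by
  obtain ⟨C, hC0, hC⟩ := mert
  refine ⟨2 * C, by positivity, fun N hN => ?_⟩
  have hmaps : ∀ π ∈ QB N, (nrm π).minFac ∈ PN N := by
    intro π hπ
    rw [mem_QB] at hπ
    obtain ⟨h1, -, h3, -⟩ := hπ.2.rat
    rw [mem_filter, mem_Icc]
    exact ⟨⟨h1.one_lt.le, h3.trans hπ.1⟩, h1⟩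
  rw [← sum_fiberwise_of_maps_to hmaps]
  have h1 : ∀ p ∈ PN N, ∑ π ∈ (QB N).filter (fun π => (nrm π).minFac = p), (1 : ℝ) / nrm π ≤
      2 * (1 / p) := by
    intro p hp
    have hpp : p.Prime := by
      rw [mem_filter] at hp
      exact hp.2
    have hp0 : (0 : ℝ) < p := by exact_mod_cast hpp.pos
    have h2 : ∀ π ∈ (QB N).filter (fun π => (nrm π).minFac = p), (1 : ℝ) / nrm π ≤ 1 / p := by
      intro π hπ
      rw [mem_filter, mem_QB] at hπ
      obtain ⟨-, -, h3, -⟩ := hπ.1.2.rat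
      rw [hπ.2] at h3
      exact one_div_le_one_div_of_le hp0 (by exact_mod_cast h3)
    have h3 : ((QB N).filter (fun π => (nrm π).minFac = p)).card ≤ 2 := by
      refine le_trans (card_le_card ?_) (card_PD_nat hpp)
      intro π hπ
      rw [mem_filter, mem_QB] at hπ
      obtain ⟨-, h4, -, -⟩ := hπ.1.2.rat
      rw [hπ.2] at h4
      have hp0' : (p : ZI) ≠ 0 := by exact_mod_cast hpp.ne_zero
      rw [mem_PD hp0']
      exact ⟨hπ.1.2, h4⟩
    calc ∑ π ∈ (QB N).filter (fun π => (nrm π).minFac = p), (1 : ℝ) / nrm π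
        ≤ ∑ π ∈ (QB N).filter (fun π => (nrm π).minFac = p), (1 : ℝ) / p := sum_le_sum h2
      _ = ((QB N).filter (fun π => (nrm π).minFac = p)).card * (1 / (p:ℝ)) := by
          rw [sum_const, nsmul_eq_mul]
      _ ≤ 2 * (1 / p) := by
          refine mul_le_mul_of_nonneg_right ?_ (by positivity)
          exact_mod_cast h3
  refine (sum_le_sum h1).trans ?_
  rw [← mul_sum]
  have := hC N hN
  linarith

/-- the sum over the small parts -/
theorem small_sum (a : ℝ) (ha : 0 ≤ a) (z : ℕ) :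
    ∑ S ∈ (QB z).powerset, a ^ S.card * (1 / (pN S : ℝ)) ≤
      Real.exp (a * ∑ π ∈ QB z, (1 : ℝ) / nrm π) := by
  have h := eulerE (QB z) (fun π => a * (1 / (nrm π : ℝ))) fun π _ => by positivity
  rw [← mul_sum] at h
  refine le_trans (le_of_eq ?_) h
  refine sum_congr rfl fun S _ => ?_
  rw [prod_mul_distrib, prod_const, prod_div_distrib, prod_const_one]
  unfold pN
  push_cast
  rfl

/-- the general estimate -/
theorem gen (a b : ℝ) (ha : 0 ≤ a) (hb : 0 ≤ b) (Q : ℕ → Finset ZI → Prop)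
    (hcount : ∀ (X : ℕ) (S₀ : Finset ZI), (∀ u ∈ S₀, PP u ∧ nrm u ≤ zz X) → S₀.card ≤ kk X →
      ∀ F : Finset (Finset ZI),
      (∀ S ∈ F, S ∈ SS L X ∧ (S.card ≤ kk X ∧ Q X S) ∧ sm (zz X) S = S₀) → (F.card : ℝ) ≤
        b * a ^ S₀.card * lg (pN S₀) * (((X / pN S₀ : ℕ) : ℝ) *
          (lg (X / pN S₀)) ^ (-(1 / 3) : ℝ))) :
    ∀ ε : ℝ, 0 < ε → ∃ X₀ : ℕ, ∀ X : ℕ, X₀ ≤ X → ∀ F : Finset (Finset ZI),
      (∀ S ∈ F, S ∈ SS L X ∧ S.card ≤ kk X ∧ Q X S) → (F.card : ℝ) ≤ ε * X := by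
  intro ε hε
  obtain ⟨C, hC0, hC⟩ := M_le
  -- the final comparison
  have hlim : Tendsto (fun l : ℝ => (297 * b * Real.exp (a * C)) * Real.exp (-(1 / 12) * l)) atTop
      (nhds 0) := by
    have h1 : Tendsto (fun l : ℝ => Real.exp (-(1 / 12) * l)) atTop (nhds 0) := by
      refine Real.tendsto_exp_atBot.comp ?_
      exact tendsto_id.const_mul_atTop_of_neg (by norm_num)
    have := h1.const_mul (297 * b * Real.exp (a * C))
    rwa [mul_zero] at this
  have hpow : ∀ᶠ l : ℝ in atTop, 33 * l ^ 4 + 3 ≤ Real.exp l := by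
    have h1 := (Real.isLittleO_pow_exp_atTop (n := 4)).bound (show (0:ℝ) < 1 / 66 by norm_num)
    filter_upwards [h1, eventually_ge_atTop (2:ℝ)] with l hl hl2
    rw [Real.norm_of_nonneg (by positivity), Real.norm_of_nonneg (Real.exp_pos _).le] at hl
    have h2 : (16:ℝ) ≤ l ^ 4 := by
      have := pow_le_pow_left₀ (by norm_num : (0:ℝ) ≤ 2) hl2 4
      linarith
    linarith
  have hev := (((eL_tendsto.eventually (log_small (4 + 6 * a) (1 / 4) (by norm_num))).and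
    (eL_tendsto.eventually (eventually_ge_atTop 2))).and
    (eL_tendsto.eventually (hlim.eventually (gt_mem_nhds hε)))).and (eL_tendsto.eventually hpow)
  obtain ⟨X₀, hX₀⟩ := eventually_atTop.1 hev
  refine ⟨max X₀ 3, fun X hX F hF => ?_⟩
  obtain ⟨⟨⟨k1, k2⟩, k3⟩, k4⟩ := hX₀ X ((le_max_left _ _).trans hX)
  have hX3 : 3 ≤ X := (le_max_right _ _).trans hX
  set ℓ : ℝ := eL X with hℓ
  set z : ℕ := zz X with hz
  set k : ℕ := kk X with hk
  have hl0 : 0 < ℓ := by linarith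
  have hlX : Real.log X = Real.exp ℓ := by
    have := rpow_eq (X := X) k2 1
    rwa [Real.rpow_one, one_mul] at this
  have hX0 : (0 : ℝ) < X := by exact_mod_cast (by omega : 0 < X)
  have hk11 : (k : ℝ) ≤ 11 * ℓ := by
    have h := Nat.ceil_lt_add_one (show (0 : ℝ) ≤ 10 * eL X by rw [← hℓ]; positivity)
    have h' : (k : ℝ) < 10 * ℓ + 1 := h
    linarith
  have hz3 : 3 ≤ z := zz_ge k2
  have hz0 : (0 : ℝ) < z := by exact_mod_cast (by omega : 0 < z)
  have hzlog : Real.log z ≤ ℓ ^ 3 := by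
    rw [Real.log_le_iff_le_exp hz0]
    exact Nat.floor_le (Real.exp_pos _).le
  have hzlog0 : 0 < Real.log z := Real.log_pos (by exact_mod_cast (by omega : 1 < z))
  have hl4 : (1 : ℝ) ≤ ℓ ^ 4 := one_le_pow₀ (by linarith)
  set W : Finset (Finset ZI) := (QB z).powerset.filter fun S => S.card ≤ k with hW
  have hmaps : ∀ S ∈ F, sm z S ∈ W := by
    intro S hS
    replace hS := hF S hS
    rw [hW, mem_filter, mem_powerset]
    refine ⟨?_, (card_le_card (filter_subset _ _)).trans hS.2.1⟩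
    intro π hπ
    unfold sm at hπ
    rw [mem_filter] at hπ
    unfold SS at hS
    rw [mem_filter] at hS
    rw [mem_QB]
    exact ⟨hπ.2, hS.1.2.1.1 π hπ.1⟩
  have hcard : (F.card : ℝ) = ∑ S₀ ∈ W, ((F.filter fun S => sm z S = S₀).card : ℝ) := by
    have := card_eq_sum_card_fiberwise hmaps
    exact_mod_cast this
  have hone : ∀ S₀ ∈ W, ((F.filter fun S => sm z S = S₀).card : ℝ) ≤
      (a ^ S₀.card * (1 / (pN S₀ : ℝ))) * (297 * b * ℓ ^ 4 * X * Real.exp (-(1 / 3) * ℓ)) := by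
    intro S₀ hS₀
    rw [hW, mem_filter, mem_powerset] at hS₀
    have hpq : ∀ u ∈ S₀, PP u ∧ nrm u ≤ z := fun u hu => by
      have := hS₀.1 hu
      rw [mem_QB] at this
      exact ⟨this.2, this.1⟩
    have h1 := hcount X S₀ hpq hS₀.2 (F.filter fun S => sm z S = S₀) (fun S hS => by
      rw [mem_filter] at hS
      have h := hF S hS.1
      exact ⟨h.1, h.2, hS.2⟩)
    refine h1.trans ?_
    set N := pN S₀ with hN
    have hN0 : 0 < N := pN_pos fun u hu => (hpq u hu).1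
    have hN0' : (0 : ℝ) < N := by exact_mod_cast hN0
    have hlN : Real.log N ≤ 11 * ℓ ^ 4 := by
      have e1 : Real.log N = ∑ p ∈ S₀, Real.log (nrm p) := by
        rw [hN]
        unfold pN
        push_cast
        rw [Real.log_prod]
        intro p hp
        have := nrm_ne (hpq p hp).1.ne
        exact_mod_cast this
      rw [e1]
      calc ∑ p ∈ S₀, Real.log (nrm p) ≤ ∑ _p ∈ S₀, Real.log z := by
            refine sum_le_sum fun p hp => ?_
            exact Real.log_le_log (by exact_mod_cast nrm_pos' (hpq p hp).1.ne)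
              (by exact_mod_cast (hpq p hp).2)
        _ = S₀.card * Real.log z := by rw [sum_const, nsmul_eq_mul]
        _ ≤ (11 * ℓ) * ℓ ^ 3 := by
            refine mul_le_mul (le_trans (by exact_mod_cast hS₀.2) hk11) hzlog hzlog0.le
              (by positivity)
        _ = 11 * ℓ ^ 4 := by ring
    have hlgN : lg N ≤ 33 * ℓ ^ 4 := by
      rcases Nat.lt_or_ge N 2 with h | h
      · have : N = 1 := by omega
        rw [this]
        have : lg 1 = 1 := by unfold lg; simp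
        rw [this]
        linarith
      · have := lg_le_log h
        linarith
    have hYle : ((X / N : ℕ) : ℝ) ≤ (X : ℝ) / N := Nat.cast_div_le
    have hYge : Real.exp (Real.log X / 3) ≤ ((X / N : ℕ) : ℝ) := by
      have e1 : (X : ℝ) / N < ((X / N : ℕ) : ℝ) + 1 := by
        rw [div_lt_iff₀ hN0']
        have := Nat.lt_mul_div_succ X hN0
        have h' : ((X : ℕ) : ℝ) < ((N * (X / N + 1) : ℕ) : ℝ) := by exact_mod_cast this
        rw [Nat.cast_mul, Nat.cast_add, Nat.cast_one] at h'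
        linarith
      have e2 : Real.exp (Real.log X - Real.log N) = (X : ℝ) / N := by
        rw [Real.exp_sub, Real.exp_log hX0, Real.exp_log hN0']
      have e3 : Real.exp (Real.log X / 3 + 1) ≤ (X : ℝ) / N := by
        rw [← e2]
        apply Real.exp_le_exp.2
        rw [← hlX] at k4
        linarith
      rw [Real.exp_add] at e3
      have e4 : (2 : ℝ) ≤ Real.exp 1 := by have := Real.exp_one_gt_d9; linarith
      have e5 : (1 : ℝ) ≤ Real.exp (Real.log X / 3) := by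
        apply Real.one_le_exp
        rw [hlX]
        positivity
      nlinarith
    have hY1 : 1 ≤ X / N := by
      have : (0:ℝ) < ((X / N : ℕ) : ℝ) := lt_of_lt_of_le (Real.exp_pos _) hYge
      exact_mod_cast this
    have hlgY : Real.exp ℓ / 3 ≤ lg (X / N) := by
      refine le_trans ?_ (log_le_lg hY1)
      rw [← hlX, Real.le_log_iff_exp_le (by exact_mod_cast hY1)]
      exact hYge
    have hrp : (lg (X / N)) ^ (-(1 / 3) : ℝ) ≤ 3 * Real.exp (-(1 / 3) * ℓ) := by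
      have e1 : (lg (X / N)) ^ (-(1 / 3) : ℝ) ≤ (Real.exp ℓ / 3) ^ (-(1 / 3) : ℝ) :=
        Real.rpow_le_rpow_of_nonpos (by positivity) hlgY (by norm_num)
      refine e1.trans ?_
      rw [Real.div_rpow (Real.exp_pos _).le (by norm_num), ← Real.exp_mul, div_eq_mul_inv,
        ← Real.rpow_neg (by norm_num), neg_neg, mul_comm ℓ, mul_comm]
      refine mul_le_mul_of_nonneg_right ?_ (Real.exp_pos _).le
      calc (3:ℝ) ^ (1 / 3 : ℝ) ≤ 3 ^ (1:ℝ) :=
            Real.rpow_le_rpow_of_exponent_le (by norm_num) (by norm_num)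
        _ = 3 := Real.rpow_one _
    have hlg0 : 0 ≤ lg N := (zero_le_one.trans (one_le_lg N))
    have hrp0 : 0 ≤ (lg (X / N)) ^ (-(1 / 3) : ℝ) :=
      Real.rpow_nonneg (zero_le_one.trans (one_le_lg _)) _
    calc b * a ^ S₀.card * lg N * (((X / N : ℕ) : ℝ) * (lg (X / N)) ^ (-(1 / 3) : ℝ))
        ≤ b * a ^ S₀.card * (33 * ℓ ^ 4) * (((X : ℝ) / N) * (3 * Real.exp (-(1 / 3) * ℓ))) := by
          gcongr
      _ ≤ _ := by
          have : b * a ^ S₀.card * (33 * ℓ ^ 4) * (((X : ℝ) / N) * (3 * Real.exp (-(1 / 3) * ℓ))) =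
            (a ^ S₀.card * (1 / (N : ℝ))) * (99 * b * ℓ ^ 4 * X * Real.exp (-(1 / 3) * ℓ)) := by
            ring
          rw [this]
          gcongr
          norm_num
  have hsum : (F.card : ℝ) ≤ Real.exp (a * ∑ π ∈ QB z, (1 : ℝ) / nrm π) *
      (297 * b * ℓ ^ 4 * X * Real.exp (-(1 / 3) * ℓ)) := by
    rw [hcard]
    refine (sum_le_sum hone).trans ?_
    rw [← sum_mul]
    refine mul_le_mul_of_nonneg_right ?_ (by positivity)
    refine le_trans ?_ (small_sum a ha z)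
    refine sum_le_sum_of_subset_of_nonneg (filter_subset _ _) fun S _ _ => by positivity
  have hM : a * ∑ π ∈ QB z, (1 : ℝ) / nrm π ≤ a * C + 6 * a * Real.log ℓ := by
    have h1 := hC z hz3
    have h2 := loglog_zz k2
    have h3 : ∑ π ∈ QB z, (1 : ℝ) / nrm π ≤ 6 * Real.log ℓ + C := by linarith
    have := mul_le_mul_of_nonneg_left h3 ha
    linarith
  have hl4' : ℓ ^ 4 = Real.exp (4 * Real.log ℓ) := by
    rw [show (4:ℝ) * Real.log ℓ = Real.log (ℓ ^ 4) by rw [Real.log_pow]; push_cast; ring]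
    exact (Real.exp_log (by positivity)).symm
  calc (F.card : ℝ) ≤ Real.exp (a * C + 6 * a * Real.log ℓ) *
        (297 * b * ℓ ^ 4 * X * Real.exp (-(1 / 3) * ℓ)) := by
        refine hsum.trans ?_
        gcongr
    _ = 297 * b * Real.exp (a * C) * Real.exp ((4 + 6 * a) * Real.log ℓ - 1 / 3 * ℓ) * X := by
        rw [hl4', Real.exp_add, show (4 + 6 * a) * Real.log ℓ - 1 / 3 * ℓ =
          6 * a * Real.log ℓ + 4 * Real.log ℓ + -(1 / 3) * ℓ by ring, Real.exp_add, Real.exp_add]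
        ring
    _ ≤ 297 * b * Real.exp (a * C) * Real.exp (-(1 / 12) * ℓ) * X := by
        gcongr
        linarith
    _ ≤ ε * X := by
        refine mul_le_mul_of_nonneg_right ?_ hX0.le
        exact le_of_lt k3

/-- the large parts are counted by squarefree elements -/
theorem fiber_le (X z : ℕ) (S₀ : Finset ZI) (hS₀ : ∀ u ∈ S₀, PP u)
    (F : Finset (Finset ZI)) (hF : ∀ S ∈ F, S ∈ SS L X ∧ sm z S = S₀) (g : ZI → ℝ)
    (hg : ∀ π, 0 ≤ g π) (c : ℝ) (hc : ∀ S ∈ F, c ≤ ∏ π ∈ la z S, g π) :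
    (F.card : ℝ) * c ≤ ∑ n ∈ SB (X / pN S₀), mf g n := by
  have hpr : ∀ S ∈ F, (∀ π ∈ S, PP π) ∧ ∏ π ∈ S, nrm π ≤ X := by
    intro S hS
    have h := (hF S hS).1
    unfold SS at h
    rw [mem_filter] at h
    exact ⟨h.2.1.1, h.2.2⟩
  rw [← nsmul_eq_mul, ← sum_const]
  refine sum_le_inj (fun S => ∏ π ∈ la z S, π) ?_ ?_ ?_ ?_
  · intro S hS
    obtain ⟨h1, h2⟩ := hpr S hS
    rw [mem_SB]
    refine ⟨?_, (PS_prod fun π hπ => h1 π (filter_subset _ _ hπ)).1⟩
    rw [Nat.le_div_iff_mul_le (pN_pos hS₀), nrm_prod, mul_comm]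
    have : (∏ π ∈ sm z S, nrm π) * ∏ π ∈ la z S, nrm π = ∏ π ∈ S, nrm π :=
      prod_filter_mul_prod_filter_not _ _ _
    unfold pN
    rw [← (hF S hS).2, this]
    exact h2
  · intro S hS T hT h
    have e1 := (PS_prod (S := la z S) fun π hπ => (hpr S hS).1 π (filter_subset _ _ hπ)).2
    have e2 := (PS_prod (S := la z T) fun π hπ => (hpr T hT).1 π (filter_subset _ _ hπ)).2
    have e3 : la z S = la z T := by
      rw [← e1, ← e2]
      exact congrArg PD h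
    have key : ∀ S : Finset ZI, sm z S ∪ la z S = S := fun S => filter_union_filter_not_eq _ _
    rw [← key S, ← key T, (hF S hS).2, (hF T hT).2, e3]
  · intro S hS
    refine (hc S hS).trans (le_of_eq ?_)
    unfold mf
    rw [(PS_prod (S := la z S) fun π hπ => (hpr S hS).1 π (filter_subset _ _ hπ)).2]
  · intro n _
    exact mf_nonneg hg n


theorem one_div_sqrt_le {x : ℝ} (hx : 1 ≤ x) : 1 / Real.sqrt x ≤ x ^ (-(1 / 3) : ℝ) := by
  have h1 : 1 / Real.sqrt x = x ^ (-(1 / 2) : ℝ) := by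
    rw [Real.rpow_neg (by linarith), Real.sqrt_eq_rpow, one_div]
  rw [h1]
  exact Real.rpow_le_rpow_of_exponent_le hx (by norm_num)

theorem div_sqrt_le (T : ℕ) : (T : ℝ) / Real.sqrt (lg T) ≤ T * (lg T) ^ (-(1 / 3) : ℝ) := by
  rw [div_eq_mul_one_div]
  exact mul_le_mul_of_nonneg_left (one_div_sqrt_le (one_le_lg T)) (Nat.cast_nonneg _)

theorem few_count (V : ℕ) (X : ℕ) (S₀ : Finset ZI) (hS₀ : ∀ u ∈ S₀, PP u ∧ nrm u ≤ zz X)
    (F : Finset (Finset ZI))
    (hF : ∀ S ∈ F, S ∈ SS L X ∧ (S.card ≤ kk X ∧ (la (zz X) S).card ≤ 2 * (sm (zz X) S).card + V) ∧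
      sm (zz X) S = S₀) : (F.card : ℝ) ≤
        126 * 2 ^ V * 4 ^ S₀.card * lg (pN S₀) * (((X / pN S₀ : ℕ) : ℝ) *
          (lg (X / pN S₀)) ^ (-(1 / 3) : ℝ)) := by
  have h := fiber_le X (zz X) S₀ (fun u hu => (hS₀ u hu).1)
    F (fun S hS => ⟨(hF S hS).1, (hF S hS).2.2⟩) (fun _ => 1 / 2) (fun _ => by norm_num)
    ((1 / 2) ^ (2 * S₀.card + V)) (fun S hS => by
        replace hS := hF S hS
        rw [prod_const]
        refine pow_le_pow_of_le_one (by norm_num) (by norm_num) ?_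
        have := hS.2.1.2
        rw [hS.2.2] at this
        exact this)
  have h2 := h.trans (hall0 (X / pN S₀))
  have hlg := one_le_lg (pN S₀)
  have h3 : (2 : ℝ) ^ (2 * S₀.card + V) * (1 / 2) ^ (2 * S₀.card + V) = 1 := by
    rw [← mul_pow]
    norm_num
  set c := (F.card : ℝ) with hcdef
  have hT := div_sqrt_le (X / pN S₀)
  have hTl : 0 ≤ ((X / pN S₀ : ℕ) : ℝ) * (lg (X / pN S₀)) ^ (-(1 / 3) : ℝ) :=
    mul_nonneg (Nat.cast_nonneg _) (Real.rpow_nonneg (zero_le_one.trans (one_le_lg _)) _)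
  calc c = (2 : ℝ) ^ (2 * S₀.card + V) * (c * (1 / 2) ^ (2 * S₀.card + V)) := by
        linear_combination (-c) * h3
    _ ≤ (2 : ℝ) ^ (2 * S₀.card + V) * (126 * (((X / pN S₀ : ℕ) : ℝ) *
          (lg (X / pN S₀)) ^ (-(1 / 3) : ℝ))) :=
          mul_le_mul_of_nonneg_left (h2.trans (by linarith)) (by positivity)
    _ = (126 * 2 ^ V * 4 ^ S₀.card) * 1 * (((X / pN S₀ : ℕ) : ℝ) *
          (lg (X / pN S₀)) ^ (-(1 / 3) : ℝ)) := by
          have e : (4 : ℝ) = 2 ^ 2 := by norm_num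
          rw [pow_add, e, ← pow_mul]
          ring
    _ ≤ (126 * 2 ^ V * 4 ^ S₀.card) * lg (pN S₀) * (((X / pN S₀ : ℕ) : ℝ) *
          (lg (X / pN S₀)) ^ (-(1 / 3) : ℝ)) := by gcongr

theorem t_FEW (L : Cls) (V : ℕ) (ε : ℝ) (hε : 0 < ε) : ∃ X₀ : ℕ, ∀ X : ℕ, X₀ ≤ X →
    (((SS L X).filter fun S => S.card ≤ kk X ∧
      (la (zz X) S).card ≤ 2 * (sm (zz X) S).card + V).card : ℝ) ≤ ε * X := by
  obtain ⟨X₀, hX₀⟩ := gen (L := L) 4 (126 * 2 ^ V) (by norm_num) (by positivity)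
    (fun X S => (la (zz X) S).card ≤ 2 * (sm (zz X) S).card + V)
    (fun X S₀ hS₀ _ F hF => few_count V X S₀ hS₀ F hF) ε hε
  refine ⟨X₀, fun X hX => hX₀ X hX _ fun S hS => ?_⟩
  rw [mem_filter] at hS
  exact hS

/-- the sign -/
noncomputable def sr (a : ZMod 2) : ℝ := if a = 0 then 1 else -1

theorem sr_add (a b : ZMod 2) : sr (a + b) = sr a * sr b := by
  have h : ∀ a : ZMod 2, a = 0 ∨ a = 1 := by decide
  have e : (1 : ZMod 2) + 1 = 0 := by decide
  rcases h a with rfl | rfl <;> rcases h b with rfl | rfl <;> simp [sr, e]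

theorem sr_sum (A : Finset ZI) (f : ZI → ZMod 2) : sr (∑ u ∈ A, f u) = ∏ u ∈ A, sr (f u) := by
  induction A using Finset.induction_on with
  | empty => rw [sum_empty, prod_empty]; simp [sr]
  | insert a s ha ih => rw [sum_insert ha, prod_insert ha, sr_add, ih]

/-- the labels are degenerate with respect to a set and a condition -/
def Dg (t : ZI → ZMod 2) (W : Finset ZI) (s : Prop) (T : Finset ZI) : Prop :=
  ∀ π ∈ T, ∑ u ∈ W, nq π u + (if s then t π else 0) = 0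

theorem notNd {t : ZI → ZMod 2} {S₀ T : Finset ZI} (h : ¬ Nd nq t S₀ T) :
    ∃ (W : Finset ZI) (b : Bool), W ⊆ S₀ ∧ (W ≠ ∅ ∨ b = true) ∧ Dg t W (b = true) T := by
  unfold Nd at h
  push Not at h
  obtain ⟨w, c, hw, h2⟩ := h
  refine ⟨S₀.filter fun u => w u ≠ 0, decide (c ≠ 0), filter_subset _ _, ?_, ?_⟩
  · rcases hw with ⟨u, hu, hu0⟩ | hc
    · left
      exact ne_empty_of_mem (mem_filter.2 ⟨hu, hu0⟩)
    · right
      exact decide_eq_true hc
  · intro π hπ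
    refine Eq.trans ?_ (h2 π hπ)
    rw [sum_filter]
    have key : ∀ a b : ZMod 2, (if a ≠ 0 then b else 0) = a * b := by decide
    congr 1
    · exact sum_congr rfl fun u _ => key (w u) (nq π u)
    · by_cases hc : c ≠ 0
      · rw [if_pos (decide_eq_true hc), ← key c (t π), if_pos hc]
      · rw [if_neg (by rw [decide_eq_true_iff]; exact hc), ← key c (t π), if_neg hc]

theorem lg_mul (a b : ℕ) (ha : 1 ≤ a) (hb : 1 ≤ b) : lg (a * b) ≤ lg a + lg b := by
  unfold lg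
  have h1 : Nat.log 2 (a * b) < Nat.log 2 a + 1 + (Nat.log 2 b + 1) := by
    apply Nat.log_lt_of_lt_pow (by positivity)
    rw [pow_add]
    exact Nat.mul_lt_mul'' (Nat.lt_pow_succ_log_self (by norm_num) a)
      (Nat.lt_pow_succ_log_self (by norm_num) b)
  have h2 : (Nat.log 2 (a * b) : ℝ) + 1 ≤ Nat.log 2 a + 1 + (Nat.log 2 b + 1) := by exact_mod_cast h1
  linarith

section psi
variable {ψ : ZI → ℝ} {q : ZI}

theorem sr_tq (h : Psi ψ q) {π : ZI} (hπ : PP π) : sr (tq ψ π) = ψ π := by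
  unfold tq sr
  rcases h.val π hπ.prm with h1 | h1 <;> rw [h1] <;> norm_num

theorem sr_nq {π u : ZI} (hπ : PP π) (hu : PP u) (hne : u ≠ π) : sr (nq π u) = (qr u π : ℝ) := by
  have hd : ¬ u ∣ π := fun hd => hne (hu.eq_of_dvd hπ hd)
  rw [nq_symm π u hπ hu]
  unfold nq sr
  rcases qr_cases (π := u) hd with h1 | h1
  · rw [h1]
    norm_num
  · rw [h1]
    norm_num

theorem pair_count2 (h : Psi ψ q) (X z : ℕ) (S₀ : Finset ZI) (hS₀ : ∀ u ∈ S₀, PP u ∧ nrm u ≤ z)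
    (W : Finset ZI) (hW : W ⊆ S₀) (s : Prop) (hs : W ≠ ∅ ∨ s)
    (F : Finset (Finset ZI))
    (hF : ∀ S ∈ F, (S ∈ SS L X ∧ sm z S = S₀) ∧ Dg (tq ψ) W s (la z S)) :
    (F.card : ℝ) ≤ 3360 * lg (nrm q) * lg (pN S₀) * (((X / pN S₀ : ℕ) : ℝ) *
          (lg (X / pN S₀)) ^ (-(1 / 3) : ℝ)) := by
  obtain ⟨a1, a2⟩ := PS_prod (S := W) fun π hπ => (hS₀ π (hW hπ)).1
  set G := ∏ π ∈ W, π with hG
  have hG1 : G ≠ 1 ∨ s := by
    rcases hs with h1 | h1
    · left
      intro h2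
      apply h1
      rw [← a2, h2, PD_one]
    · exact Or.inr h1
  have hval : ∀ S ∈ F, ∀ π ∈ la z S, chi ψ G s π = 1 := by
    intro S hS π hπ
    obtain ⟨⟨h1, h2⟩, h3⟩ := hF S hS
    have hπq : PP π ∧ ¬ nrm π ≤ z := by
      unfold la at hπ
      rw [mem_filter] at hπ
      exact ⟨(mem_SS.1 h1).1.1 π hπ.1, hπ.2⟩
    unfold chi
    rw [if_pos hπq.1.prm]
    unfold jac
    rw [a2]
    have e1 : ((∏ u ∈ W, qr u π : ℤ) : ℝ) = sr (∑ u ∈ W, nq π u) := by
      rw [sr_sum]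
      push_cast
      refine prod_congr rfl fun u hu => ?_
      rw [sr_nq hπq.1 (hS₀ u (hW hu)).1]
      rintro rfl
      exact hπq.2 (hS₀ u (hW hu)).2
    have e2 : (if s then ψ π else 1) = sr (if s then tq ψ π else 0) := by
      by_cases hs' : s
      · rw [if_pos hs', if_pos hs', sr_tq h hπq.1]
      · rw [if_neg hs', if_neg hs']
        simp [sr]
    rw [e1, e2, ← sr_add, h3 π hπ]
    simp [sr]
  have hnn : ∀ π, 0 ≤ (1 + chi ψ G s π) / 2 := by
    intro π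
    rcases (chi_Chi h a1 hG1).val π with h1 | h1 | h1 <;> rw [h1] <;> norm_num
  have h1 := fiber_le X z S₀ (fun u hu => (hS₀ u hu).1) F (fun S hS => (hF S hS).1)
    (fun π => (1 + chi ψ G s π) / 2) hnn 1 (fun S hS => by
      refine le_of_eq (prod_eq_one fun π hπ => ?_).symm
      rw [hval S hS π hπ]
      norm_num)
  rw [mul_one] at h1
  refine h1.trans ((hallP h a1 hG1 _).trans ?_)
  have hGS : nrm G ≤ pN S₀ := by
    rw [hG, nrm_prod]
    unfold pN
    exact prod_le_prod_of_subset_of_one_le' hW fun u hu _ => nrm_pos' (hS₀ u hu).1.ne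
  have hq1 : 1 ≤ nrm q := nrm_pos' h.ne
  have hG1' : 1 ≤ nrm G := nrm_pos' a1.ne
  have h4 : Real.sqrt (lg (nrm q * nrm G)) ≤ 2 * lg (nrm q) * lg (pN S₀) := by
    have h5 := lg_mul _ _ hq1 hG1'
    have h6 := one_le_lg (nrm q)
    have h7 := one_le_lg (nrm G)
    have h8 : lg (nrm G) ≤ lg (pN S₀) := lg_mono hGS
    have h9 := one_le_lg (nrm q * nrm G)
    calc Real.sqrt (lg (nrm q * nrm G)) ≤ lg (nrm q * nrm G) := by
          rw [Real.sqrt_le_left (by linarith)]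
          nlinarith
      _ ≤ lg (nrm q) + lg (pN S₀) := by linarith
      _ ≤ 2 * lg (nrm q) * lg (pN S₀) := by nlinarith
  have hT := div_sqrt_le (X / pN S₀)
  have hT0 : 0 ≤ ((X / pN S₀ : ℕ) : ℝ) / Real.sqrt (lg (X / pN S₀)) := by positivity
  have h6 := one_le_lg (nrm q)
  have h7 := one_le_lg (pN S₀)
  calc 1680 * Real.sqrt (lg (nrm q * nrm G)) *
        (((X / pN S₀ : ℕ) : ℝ) / Real.sqrt (lg (X / pN S₀))) ≤
      1680 * (2 * lg (nrm q) * lg (pN S₀)) *
        (((X / pN S₀ : ℕ) : ℝ) * (lg (X / pN S₀)) ^ (-(1 / 3) : ℝ)) := by gcongr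
    _ = _ := by ring

theorem bad_count (h : Psi ψ q) (X : ℕ) (S₀ : Finset ZI) (hS₀ : ∀ u ∈ S₀, PP u ∧ nrm u ≤ zz X)
    (G : Finset (Finset ZI))
    (hG : ∀ S ∈ G, S ∈ SS L X ∧ (S.card ≤ kk X ∧ ¬ Nd nq (tq ψ) (sm (zz X) S) (la (zz X) S)) ∧
      sm (zz X) S = S₀) : (G.card : ℝ) ≤
        6720 * lg (nrm q) * 2 ^ S₀.card * lg (pN S₀) * (((X / pN S₀ : ℕ) : ℝ) *
          (lg (X / pN S₀)) ^ (-(1 / 3) : ℝ)) := by
  set P : Finset (Finset ZI × Bool) := (S₀.powerset ×ˢ univ).filter fun p => p.1 ≠ ∅ ∨ p.2 = true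
    with hP
  have hsub : G ⊆ P.biUnion fun p => G.filter fun S => Dg (tq ψ) p.1 (p.2 = true) (la (zz X) S) := by
    intro S hS
    obtain ⟨h1, ⟨h2, h3⟩, h4⟩ := hG S hS
    rw [h4] at h3
    obtain ⟨W, b, hW, hWb, hDg⟩ := notNd h3
    rw [mem_biUnion]
    refine ⟨(W, b), ?_, ?_⟩
    · rw [hP, mem_filter, mem_product, mem_powerset]
      exact ⟨⟨hW, mem_univ _⟩, hWb⟩
    · rw [mem_filter]
      exact ⟨hS, hDg⟩
  have h1 : (G.card : ℝ) ≤
      ∑ p ∈ P, ((G.filter fun S => Dg (tq ψ) p.1 (p.2 = true) (la (zz X) S)).card : ℝ) := by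
    exact_mod_cast (card_le_card hsub).trans card_biUnion_le
  have h2 : ∀ p ∈ P, ((G.filter fun S => Dg (tq ψ) p.1 (p.2 = true) (la (zz X) S)).card : ℝ) ≤
      3360 * lg (nrm q) * lg (pN S₀) *
        (((X / pN S₀ : ℕ) : ℝ) * (lg (X / pN S₀)) ^ (-(1 / 3) : ℝ)) := by
    intro p hp
    rw [hP, mem_filter, mem_product, mem_powerset] at hp
    refine pair_count2 (L := L) h X (zz X) S₀ hS₀ p.1 hp.1.1 (p.2 = true) hp.2 _ ?_
    intro S hS
    rw [mem_filter] at hS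
    have h := hG S hS.1
    exact ⟨⟨h.1, h.2.2⟩, hS.2⟩
  have h3 : (P.card : ℝ) ≤ 2 * 2 ^ S₀.card := by
    have : P.card ≤ 2 * 2 ^ S₀.card := by
      refine (card_filter_le _ _).trans (le_of_eq ?_)
      rw [card_product, card_powerset, card_univ, Fintype.card_bool, mul_comm]
    exact_mod_cast this
  have hTl : 0 ≤ ((X / pN S₀ : ℕ) : ℝ) * (lg (X / pN S₀)) ^ (-(1 / 3) : ℝ) :=
    mul_nonneg (Nat.cast_nonneg _) (Real.rpow_nonneg (zero_le_one.trans (one_le_lg _)) _)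
  have hlg := lg_pos (pN S₀)
  have hlq := lg_pos (nrm q)
  calc (G.card : ℝ) ≤ ∑ p ∈ P, 3360 * lg (nrm q) * lg (pN S₀) * (((X / pN S₀ : ℕ) : ℝ) *
        (lg (X / pN S₀)) ^ (-(1 / 3) : ℝ)) := h1.trans (sum_le_sum h2)
    _ = P.card * (3360 * lg (nrm q) * lg (pN S₀) * (((X / pN S₀ : ℕ) : ℝ) *
        (lg (X / pN S₀)) ^ (-(1 / 3) : ℝ))) := by rw [sum_const, nsmul_eq_mul]
    _ ≤ (2 * 2 ^ S₀.card) * (3360 * lg (nrm q) * lg (pN S₀) * (((X / pN S₀ : ℕ) : ℝ) *
        (lg (X / pN S₀)) ^ (-(1 / 3) : ℝ))) :=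
        mul_le_mul_of_nonneg_right h3 (by positivity)
    _ = _ := by ring

theorem t_BAD (L : Cls) (h : Psi ψ q) (ε : ℝ) (hε : 0 < ε) : ∃ X₀ : ℕ, ∀ X : ℕ, X₀ ≤ X →
    (((SS L X).filter fun S => S.card ≤ kk X ∧
      ¬ Nd nq (tq ψ) (sm (zz X) S) (la (zz X) S)).card : ℝ) ≤ ε * X := by
  have hlq := lg_pos (nrm q)
  obtain ⟨X₀, hX₀⟩ := gen (L := L) 2 (6720 * lg (nrm q)) (by norm_num) (by positivity)
    (fun X S => ¬ Nd nq (tq ψ) (sm (zz X) S) (la (zz X) S))
    (fun X S₀ hS₀ _ F hF => bad_count h X S₀ hS₀ F hF) ε hε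
  refine ⟨X₀, fun X hX => hX₀ X hX _ fun S hS => ?_⟩
  rw [mem_filter] at hS
  exact hS

end psi

end Pool.Agent.D0H45.QK
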