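import Pool.Agent.Y699.Hal2

/-!
# Mean values of `(1 + χ) / 2` over the squarefree primary Gaussian integers, for the products of a
Jacobi symbol and a character at the prime above two. After the files Hall and Hal2 of Y699.
-/

set_option autoImplicit false

open Finset

namespace Pool.Agent.D0H45.QK

open H385 (ZI RQ im1 nrm BX)
open H385.H10 (mem_BX nrm_pos Dv mem_Dv card_Dv)
open Pool.Agent.W164.RC (two2 prim_iff_dvd unit_norm unit_cases)
open Pool.Agent.H304R2.EC.A1 (prim prim_mul prim_cancel prim_one prim_norm_odd prim_star eq_one_of_prim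
  norm_def' re_mul' im_mul' eq_of_dvd prim_ne_zero exists_prim)
open Pool.Agent.Y699

/-- a real multiplicative function on the primary elements, with a bound for its sums -/
structure Chi (χ : ZI → ℝ) (N : ℕ) : Prop where
  one : χ 1 = 1
  val : ∀ a, χ a = 0 ∨ χ a = 1 ∨ χ a = -1
  mul : ∀ a b, prim a → prim b → χ (a * b) = χ a * χ b
  pos : 1 ≤ N
  sum : ∀ v : ℕ, 1 ≤ v → |∑ d ∈ PB v, χ d| ≤ 72 * N * Real.sqrt v

/-- comparison of the two convolutions -/
theorem conv_le {χ : ZI → ℝ} {N : ℕ} (hX : Chi χ N) : ∀ n : ZI, prim n →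
    mf (fun π => 1 + χ π) n ≤ ∑ d ∈ DP n, χ d := by
  have hχ := hX.val
  have hnn : ∀ n, 0 ≤ mf (fun π => 1 + χ π) n := by
    intro n
    apply mf_nonneg
    intro π
    rcases hχ π with h | h | h <;> rw [h] <;> norm_num
  have key : ∀ N : ℕ, ∀ n : ZI, nrm n = N → prim n →
      mf (fun π => 1 + χ π) n ≤ ∑ d ∈ DP n, χ d := by
    intro N
    induction N using Nat.strong_induction_on with
    | _ N ih =>
      intro n hN hn
      have hn0 := prim_ne_zero hn
      by_cases h1 : n = 1
      · rw [h1]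
        have e1 : mf (fun π => 1 + χ π) 1 = 1 := by unfold mf; rw [PD_one]; simp
        have e2 : DP (1 : ZI) = {1} := by
          ext d
          rw [mem_DP one_ne_zero, mem_singleton]
          constructor
          · rintro ⟨a1, a2⟩
            have h2 := isUnit_of_dvd_one a2
            obtain ⟨u, rfl⟩ := h2
            exact eq_one_of_prim a1 (unit_norm u)
          · rintro rfl
            exact ⟨prim_one, dvd_rfl⟩
        rw [e1, e2, sum_singleton, hX.one]
      · have hnu : ¬ IsUnit n := by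
          intro h2
          obtain ⟨u, hu⟩ := h2
          apply h1
          rw [← hu]
          rw [← hu] at hn
          exact eq_one_of_prim hn (unit_norm u)
        obtain ⟨ρ, hρ, hρn⟩ := WfDvdMonoid.exists_irreducible_factor hnu hn0
        obtain ⟨π, hπ, hass⟩ := exists_PP (irreducible_iff_prime.1 hρ) (odd_of_dvd hρn (prim_norm_odd hn))
        have hπn : π ∣ n := hass.dvd.trans hρn
        obtain ⟨k, m, hm, hnm⟩ := WfDvdMonoid.max_power_factor hn0 hπ.pr.irreducible
        have hk : 1 ≤ k := by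
          by_contra h2
          have : k = 0 := by omega
          rw [this, pow_zero, one_mul] at hnm
          rw [hnm] at hπn
          exact hm hπn
        have hmp : prim m := prim_cancel (prim_pow hπ.prm k) (by rw [← hnm]; exact hn)
        have hm0 := prim_ne_zero hmp
        have hlt : nrm m < N := by
          rw [← hN, hnm, nrm_mul]
          have h2 : 1 < nrm (π ^ k) := by
            have h3 : π ∣ π ^ k := dvd_pow_self π (by omega)
            have h4 : nrm π ≤ nrm (π ^ k) := norm_le_of_dvd (pow_ne_zero _ hπ.ne) h3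
            have h5 := hπ.nrm_ne_one
            have h6 := nrm_pos' hπ.ne
            omega
          have h3 := nrm_pos' hm0
          nlinarith
        have h2 := ih (nrm m) hlt m rfl hmp
        rw [hnm, sum_DP_mul hπ hmp hm]
        have e1 : mf (fun π => 1 + χ π) (π ^ k * m) =
            (1 + χ π) * mf (fun π => 1 + χ π) m := by
          unfold mf
          classical
          have h3 : PD (π ^ k * m) = insert π (PD m) := by
            ext ρ
            rw [mem_insert, mem_PD (mul_ne_zero (pow_ne_zero _ hπ.ne) hm0), mem_PD hm0]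
            constructor
            · rintro ⟨a1, a2⟩
              rcases a1.pr.dvd_or_dvd a2 with a3 | a3
              · left
                exact a1.eq_of_dvd hπ (a1.pr.dvd_of_dvd_pow a3)
              · right
                exact ⟨a1, a3⟩
            · rintro (rfl | ⟨a1, a2⟩)
              · exact ⟨hπ, (dvd_pow_self _ (by omega)).mul_right _⟩
              · exact ⟨a1, a2.mul_left _⟩
          rw [h3, prod_insert]
          rw [mem_PD hm0]
          exact fun h4 => hm h4.2
        rw [e1]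
        have e2 : ∀ j d, prim d → χ (π ^ j * d) = χ π ^ j * χ d := by
          intro j d hd
          have : ∀ j, χ (π ^ j) = χ π ^ j := by
            intro j
            induction j with
            | zero => rw [pow_zero, pow_zero, hX.one]
            | succ j ih => rw [pow_succ, pow_succ, hX.mul _ _ (prim_pow hπ.prm j) hπ.prm, ih]
          rw [hX.mul _ _ (prim_pow hπ.prm j) hd, this]
        rw [sum_congr rfl fun j _ => sum_congr rfl fun d hd => e2 j d ((mem_DP hm0).1 hd).1]
        simp_rw [← mul_sum]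
        rw [← sum_mul]
        have h3 := sgn_sum (hχ π) hk
        have h4 : (0 : ℝ) ≤ 1 + χ π := by
          rcases hχ π with h | h | h <;> rw [h] <;> norm_num
        exact mul_le_mul h3 h2 (hnn m) (h4.trans h3)
  intro n hn
  exact key _ n rfl hn



lemma Chi.abs {χ : ZI → ℝ} {N : ℕ} (hX : Chi χ N) (a : ZI) : |χ a| ≤ 1 := by
  rcases hX.val a with h | h | h <;> rw [h] <;> norm_num

lemma chs_le' {χ : ZI → ℝ} {N : ℕ} (hX : Chi χ N) {v : ℕ} (hv : 1 ≤ v) :
    |∑ d ∈ PB v, χ d| ≤ 9 * v := by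
  refine (abs_sum_le_sum_abs _ _).trans ((sum_le_sum fun d _ => hX.abs _).trans ?_)
  rw [sum_const, nsmul_eq_mul, mul_one]
  exact card_PB_le hv

/-- partial sums of the L-series at 1 -/
theorem chs_log {χ : ZI → ℝ} {N : ℕ} (hX : Chi χ N) (Y : ℕ) :
    |∑ d ∈ PB Y, χ d / nrm d| ≤ 171 * lg N := by
  classical
  have hN1 : 1 ≤ N := hX.pos
  have hlg := one_le_lg N
  rcases Nat.eq_zero_or_pos Y with h0 | hY
  · have : PB Y = ∅ := by
      rw [eq_empty_iff_forall_notMem]
      intro x hx
      rw [mem_PB] at hx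
      have := nrm_pos' (prim_ne_zero hx.2)
      omega
    rw [this, sum_empty, abs_zero]
    linarith
  have hYr : (0 : ℝ) < Y := by exact_mod_cast hY
  -- summation by parts
  have e1 : ∑ d ∈ PB Y, χ d / nrm d = (∑ d ∈ PB Y, χ d) * (1 / Y) +
      ∑ v ∈ Ico 1 Y, (∑ d ∈ PB v, χ d) * (1 / ((v : ℝ) * (v + 1))) := by
    have e2 : ∀ d ∈ PB Y, χ d / nrm d = χ d * (1 / Y) +
        ∑ v ∈ Ico 1 Y, if nrm d ≤ v then χ d * (1 / ((v : ℝ) * (v + 1))) else 0 := by
      intro d hd
      rw [mem_PB] at hd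
      have hd1 := nrm_pos' (prim_ne_zero hd.2)
      have h2 := inv_tel (nrm d) hd1 Y hd.1
      rw [div_eq_mul_one_div, h2, mul_add, mul_sum]
      congr 1
      rw [← sum_filter]
      refine sum_congr ?_ fun _ _ => rfl
      ext v
      rw [mem_filter, mem_Ico, mem_Ico]
      constructor
      · rintro ⟨a1, a2⟩; exact ⟨⟨by omega, a2⟩, a1⟩
      · rintro ⟨⟨-, a2⟩, a1⟩; exact ⟨a1, a2⟩
    rw [sum_congr rfl e2, sum_add_distrib, ← sum_mul, sum_comm]
    congr 1
    refine sum_congr rfl fun v hv => ?_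
    rw [mem_Ico] at hv
    rw [← sum_filter, ← sum_mul]
    congr 1
    refine sum_congr ?_ fun _ _ => rfl
    ext d
    rw [mem_filter, mem_PB, mem_PB]
    constructor
    · rintro ⟨⟨-, a2⟩, a1⟩; exact ⟨a1, a2⟩
    · rintro ⟨a1, a2⟩; exact ⟨⟨by omega, a2⟩, a1⟩
  rw [e1]
  refine (abs_add_le _ _).trans ?_
  have e3 : |(∑ d ∈ PB Y, χ d) * (1 / Y)| ≤ 9 := by
    rw [abs_mul, abs_of_pos (show (0 : ℝ) < 1 / Y by positivity), mul_one_div, div_le_iff₀ hYr]
    exact chs_le' hX hY
  have e4 : ∀ v ∈ Ico 1 Y, |(∑ d ∈ PB v, χ d) * (1 / ((v : ℝ) * (v + 1)))| ≤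
      (if v < N ^ 2 then 9 * (1 / ((v : ℝ) + 1)) else 0) +
      (if N ^ 2 ≤ v then 72 * N * (Real.sqrt v / (v * (v + 1))) else 0) := by
    intro v hv
    rw [mem_Ico] at hv
    have v0 : (0 : ℝ) < v := by exact_mod_cast hv.1
    have hp : (0 : ℝ) < 1 / ((v : ℝ) * (v + 1)) := by positivity
    rw [abs_mul, abs_of_pos hp]
    by_cases h : v < N ^ 2
    · rw [if_pos h, if_neg (by omega), add_zero]
      calc |∑ d ∈ PB v, χ d| * (1 / ((v : ℝ) * (v + 1))) ≤ (9 * v) * (1 / ((v : ℝ) * (v + 1))) :=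
            mul_le_mul_of_nonneg_right (chs_le' hX hv.1) hp.le
        _ = 9 * (1 / ((v : ℝ) + 1)) := by field_simp
    · rw [if_neg h, if_pos (by omega), zero_add]
      calc |∑ d ∈ PB v, χ d| * (1 / ((v : ℝ) * (v + 1))) ≤
            (72 * N * Real.sqrt v) * (1 / ((v : ℝ) * (v + 1))) :=
            mul_le_mul_of_nonneg_right (hX.sum v hv.1) hp.le
        _ = 72 * N * (Real.sqrt v / (v * (v + 1))) := by ring
  have e5 : |∑ v ∈ Ico 1 Y, (∑ d ∈ PB v, χ d) * (1 / ((v : ℝ) * (v + 1)))| ≤
      9 * (2 * lg N) + 144 := by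
    refine (abs_sum_le_sum_abs _ _).trans ((sum_le_sum e4).trans ?_)
    rw [sum_add_distrib]
    have hN2 : 1 ≤ N ^ 2 := Nat.one_le_pow _ _ hN1
    have a1 : ∑ v ∈ Ico 1 Y, (if v < N ^ 2 then 9 * (1 / ((v : ℝ) + 1)) else 0) ≤ 9 * (2 * lg N) := by
      rw [← sum_filter, ← mul_sum]
      have h2 : ∑ v ∈ (Ico 1 Y).filter (fun v => v < N ^ 2), (1 : ℝ) / ((v : ℝ) + 1) ≤
          ∑ v ∈ Ico 1 (N ^ 2), (1 : ℝ) / ((v : ℝ) + 1) := by
        refine sum_le_sum_of_subset_of_nonneg ?_ (fun _ _ _ => by positivity)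
        intro v hv
        rw [mem_filter, mem_Ico] at hv
        rw [mem_Ico]
        exact ⟨hv.1.1, hv.2⟩
      have h3 := harm_le (N ^ 2) hN2
      have h4 : Real.log ((N ^ 2 : ℕ) : ℝ) = 2 * Real.log N := by
        push_cast
        rw [Real.log_pow]
        push_cast
        ring
      rw [h4] at h3
      have h5 := log_le_lg hN1
      linarith
    have a2 : ∑ v ∈ Ico 1 Y, (if N ^ 2 ≤ v then 72 * (N : ℝ) * (Real.sqrt v / (v * (v + 1))) else 0) ≤ 144 := by
      rw [← sum_filter, ← mul_sum]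
      have h2 : ∑ v ∈ (Ico 1 Y).filter (fun v => N ^ 2 ≤ v), Real.sqrt v / ((v : ℝ) * (v + 1)) ≤
          ∑ v ∈ Ico (N ^ 2) (max Y (N ^ 2)), Real.sqrt v / ((v : ℝ) * (v + 1)) := by
        refine sum_le_sum_of_subset_of_nonneg ?_ (fun _ _ _ => by positivity)
        intro v hv
        rw [mem_filter, mem_Ico] at hv
        rw [mem_Ico]
        exact ⟨hv.2, lt_of_lt_of_le hv.1.2 (le_max_left _ _)⟩
      have h3 := sqrt_tel (N ^ 2) hN2 (max Y (N ^ 2)) (le_max_right _ _)
      have h4 : Real.sqrt ((N ^ 2 : ℕ) : ℝ) = N := by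
        push_cast
        exact Real.sqrt_sq (Nat.cast_nonneg _)
      rw [h4] at h3
      have h5 : (0 : ℝ) ≤ 1 / Real.sqrt ((max Y (N ^ 2) : ℕ) : ℝ) := by positivity
      have Nr : (0 : ℝ) < N := by exact_mod_cast hN1
      calc 72 * (N : ℝ) * ∑ v ∈ (Ico 1 Y).filter (fun v => N ^ 2 ≤ v), Real.sqrt v / ((v : ℝ) * (v + 1))
          ≤ 72 * N * (2 * (1 / N)) := by
            apply mul_le_mul_of_nonneg_left _ (by positivity)
            linarith
        _ = 144 := by field_simp; norm_num
    linarith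
  linarith


/-- **the half-density mean value** -/
theorem hallC {χ : ZI → ℝ} {N : ℕ} (hX : Chi χ N) (T : ℕ) :
    ∑ n ∈ SB T, mf (fun π => (1 + χ π) / 2) n ≤
      1680 * Real.sqrt (lg N) * (T / Real.sqrt (lg T)) := by
  classical
  rcases Nat.eq_zero_or_pos T with h0 | hT
  · have : SB T = ∅ := by
      rw [eq_empty_iff_forall_notMem]
      intro x hx
      rw [mem_SB] at hx
      have := nrm_pos' hx.2.ne
      omega
    rw [this, sum_empty]
    positivity
  have hχ := hX.val
  have hl := one_le_lg N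
  have hA : ∑ n ∈ PB (T ^ 2), mf (fun π => 2 * ((1 + χ π) / 2)) n / nrm n ≤
      (6400 * lg N) * lg T := by
    have e1 : (fun π : ZI => 2 * ((1 + χ π) / 2)) = fun π => 1 + χ π := by
      funext π; ring
    rw [e1]
    have e2 : ∑ n ∈ PB (T ^ 2), mf (fun π => 1 + χ π) n / nrm n ≤
        ∑ n ∈ PB (T ^ 2), (∑ d ∈ DP n, χ d) / nrm n := by
      refine sum_le_sum fun n hn => ?_
      exact div_le_div_of_nonneg_right (conv_le hX n (mem_PB.1 hn).2) (Nat.cast_nonneg _)
    rw [conv_sum] at e2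
    refine e2.trans ?_
    have e3 : ∀ k ∈ PB (T ^ 2), (1 / (nrm k : ℝ)) * ∑ d ∈ PB (T ^ 2 / nrm k), χ d / nrm d ≤
        (171 * lg N) * (1 / nrm k) := by
      intro k _
      rw [mul_comm]
      exact mul_le_mul_of_nonneg_right ((le_abs_self _).trans (chs_log hX _)) (by positivity)
    refine (sum_le_sum e3).trans ?_
    rw [← mul_sum]
    have e4 := hsum (T ^ 2)
    have e5 := lg_sq T
    have e6 := lg_pos T
    have e7 : (171 * lg N) * ∑ k ∈ PB (T ^ 2), (1 : ℝ) / nrm k ≤ (171 * lg N) * (36 * lg T) := by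
      apply mul_le_mul_of_nonneg_left _ (by linarith)
      linarith
    refine e7.trans ?_
    have : 0 ≤ lg N * lg T := by positivity
    nlinarith
  have h2 := hall_aux (g := fun π => (1 + χ π) / 2)
    (fun π => by rcases hχ π with h | h | h <;> simp only [h] <;> norm_num)
    (fun π => by rcases hχ π with h | h | h <;> simp only [h] <;> norm_num) hT (by linarith) hA
  refine h2.trans (le_of_eq ?_)
  have e : Real.sqrt (6400 * lg N) = 80 * Real.sqrt (lg N) := by
    rw [Real.sqrt_mul (by norm_num)]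
    congr 1
    rw [show (6400 : ℝ) = 80 ^ 2 by norm_num]
    exact Real.sqrt_sq (by norm_num)
  rw [e]
  ring



/-- a quadratic character at the prime above two -/
structure Psi (ψ : ZI → ℝ) (q : ZI) : Prop where
  two : ∃ k : ℕ, q ∣ two2 ^ k
  per : ∀ a b, q ∣ a - b → ψ a = ψ b
  val : ∀ a, prim a → ψ a = 1 ∨ ψ a = -1
  mul : ∀ a b, prim a → prim b → ψ (a * b) = ψ a * ψ b
  nt : ∃ c, prim c ∧ ψ c = -1

open Classical in
/-- the product of a Jacobi symbol and a power of the character -/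
noncomputable def chi (ψ : ZI → ℝ) (G : ZI) (s : Prop) (a : ZI) : ℝ :=
  if prim a then (jac G a : ℝ) * (if s then ψ a else 1) else 0

section psi
variable {ψ : ZI → ℝ} {q : ZI}

lemma Psi.ne (h : Psi ψ q) : q ≠ 0 := by
  obtain ⟨k, hk⟩ := h.two
  rintro rfl
  exact pow_ne_zero k two2_ne (zero_dvd_iff.1 hk)

lemma Psi.one (h : Psi ψ q) : ψ 1 = 1 := by
  have h1 := h.mul 1 1 prim_one prim_one
  rw [mul_one] at h1
  rcases h.val 1 prim_one with h2 | h2
  · exact h2
  · rw [h2] at h1
    norm_num at h1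

lemma prim_cop {c : ZI} (hc : prim c) : IsCoprime c two2 := by
  obtain ⟨k, hk⟩ := (prim_iff_dvd c).1 hc
  exact ⟨1, -k, by linear_combination hk⟩

lemma Psi.cop (h : Psi ψ q) {c : ZI} (hc : prim c) : IsCoprime c q := by
  obtain ⟨k, hk⟩ := h.two
  exact (prim_cop hc).pow_right.of_isCoprime_of_dvd_right hk

/-- the twist -/
lemma exists_twist2 (h : Psi ψ q) {S : Finset ZI} (hS : ∀ ρ ∈ S, PP ρ) {π : ZI} (hπ : PP π)
    (hπS : π ∉ S) : ∃ c : ZI, prim c ∧ qr π c = -1 ∧ (∀ ρ ∈ S, qr ρ c = 1) ∧ ψ c = 1 := by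
  set m : ZI := (two2 * q) * ∏ ρ ∈ S, ρ with hm
  have hcop : IsCoprime π m := by
    refine IsCoprime.mul_right (IsCoprime.mul_right (prim_cop hπ.prm) (h.cop hπ.prm)) ?_
    rw [IsCoprime.prod_right_iff]
    intro ρ hρ
    exact hπ.cop (hS ρ hρ) fun h => hπS (by rw [h]; exact hρ)
  obtain ⟨b, hb⟩ := exists_nonres hπ
  obtain ⟨x, y, hxy⟩ := hcop
  set a : ZI := x * π + b * (y * m) with ha
  have ha1 : m ∣ a - 1 := ⟨b * y - y, by rw [ha]; linear_combination hxy⟩
  have ha2 : π ∣ a - b := ⟨x - b * x, by rw [ha]; linear_combination b * hxy⟩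
  refine ⟨a, ?_, by rw [qr_per ha2, hb], ?_, ?_⟩
  · rw [prim_iff_dvd]
    exact (dvd_mul_right _ _).trans ((dvd_mul_right _ _).trans ha1)
  · intro ρ hρ
    have h1 : ρ ∣ a - 1 := (Finset.dvd_prod_of_mem _ hρ).trans ((dvd_mul_left _ _).trans ha1)
    rw [qr_per h1, qr_one (hS ρ hρ)]
  · rw [h.per a 1 ((dvd_mul_left _ _).trans ((dvd_mul_right _ _).trans ha1)), h.one]

lemma jac_cop {G c : ZI} (hG : PS G) (hj : jac G c ≠ 0) : IsCoprime c G := by
  have h3 : ∏ π ∈ PD G, π = G := hG.prod
  rw [← h3, IsCoprime.prod_right_iff]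
  intro ρ hρ
  have hρP := ((mem_PD hG.ne).1 hρ).1
  rw [isCoprime_comm, hρP.pr.irreducible.coprime_iff_not_dvd]
  intro hd
  exact hj (prod_eq_zero hρ (qr_zero_iff.2 hd))

/-- the character is not principal -/
lemma exists_neg (h : Psi ψ q) {G : ZI} (hG : PS G) {s : Prop} (hs : G ≠ 1 ∨ s) :
    ∃ c : ZI, prim c ∧ IsCoprime c G ∧ chi ψ G s c = -1 := by
  classical
  by_cases h1 : G = 1
  · have hs' : s := hs.resolve_left fun h => h h1
    obtain ⟨c, hc, hc2⟩ := h.nt
    refine ⟨c, hc, by rw [h1]; exact isCoprime_one_right, ?_⟩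
    unfold chi
    rw [if_pos hc, if_pos hs', h1, jac_one_left, hc2]
    norm_num
  · obtain ⟨π, hπG⟩ : (PD G).Nonempty := by
      rw [nonempty_iff_ne_empty]
      intro he
      apply h1
      rw [← hG.prod, he, prod_empty]
    have hπ := ((mem_PD hG.ne).1 hπG).1
    obtain ⟨c, hc1, hc2, hc3, hc4⟩ := exists_twist2 h (S := (PD G).erase π)
      (fun ρ hρ => ((mem_PD hG.ne).1 (mem_of_mem_erase hρ)).1) hπ (notMem_erase _ _)
    have hj : jac G c = -1 := by
      unfold jac
      rw [← mul_prod_erase (PD G) _ hπG, hc2, prod_eq_one, mul_one]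
      exact hc3
    refine ⟨c, hc1, jac_cop hG (by rw [hj]; norm_num), ?_⟩
    unfold chi
    rw [if_pos hc1, hj, hc4]
    split_ifs <;> norm_num

lemma chi_Chi (h : Psi ψ q) {G : ZI} (hG : PS G) {s : Prop} (hs : G ≠ 1 ∨ s) :
    Chi (chi ψ G s) (nrm q * nrm G) := by
  classical
  have hval : ∀ a, chi ψ G s a = 0 ∨ chi ψ G s a = 1 ∨ chi ψ G s a = -1 := by
    intro a
    unfold chi
    by_cases ha : prim a
    · rw [if_pos ha]
      rcases jac_cases G a with h1 | h1 | h1 <;> rw [h1]
      · simp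
      · split_ifs
        · rcases h.val a ha with h2 | h2 <;> rw [h2] <;> simp
        · simp
      · split_ifs
        · rcases h.val a ha with h2 | h2 <;> rw [h2] <;> simp
        · simp
    · rw [if_neg ha]
      simp
  have hab : ∀ a, |chi ψ G s a| ≤ 1 := by
    intro a
    rcases hval a with h | h | h <;> rw [h] <;> norm_num
  have hmul : ∀ a b, prim a → prim b → chi ψ G s (a * b) = chi ψ G s a * chi ψ G s b := by
    intro a b ha hb
    unfold chi
    rw [if_pos ha, if_pos hb, if_pos (prim_mul ha hb), jac_mul_right hG.ne]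
    push_cast
    split_ifs
    · rw [h.mul a b ha hb]
      ring
    · ring
  have hpos : 1 ≤ nrm q * nrm G := Nat.one_le_iff_ne_zero.2
    (Nat.mul_ne_zero (nrm_pos' h.ne).ne' (nrm_pos' hG.ne).ne')
  refine ⟨?_, hval, hmul, hpos, ?_⟩
  · unfold chi
    rw [if_pos prim_one, jac_one_right hG.ne, h.one]
    simp
  · intro v hv
    obtain ⟨c, hc1, hc2, hc3⟩ := exists_neg h hG hs
    have hq : two2 * (q * G) ≠ 0 := mul_ne_zero two2_ne (mul_ne_zero h.ne hG.ne)
    have hcop : IsCoprime c (two2 * (q * G)) :=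
      IsCoprime.mul_right (prim_cop hc1) (IsCoprime.mul_right (h.cop hc1) hc2)
    have h3 := csum hq (f := chi ψ G s) ?_ hab hcop ?_ v
    · have e : ∑ a ∈ ZB v, chi ψ G s a = ∑ d ∈ PB v, chi ψ G s d := by
        unfold PB
        rw [sum_filter]
        refine sum_congr rfl fun a _ => ?_
        by_cases ha : prim a
        · rw [if_pos ha]
        · rw [if_neg ha]
          unfold chi
          rw [if_neg ha]
      rw [e] at h3
      refine h3.trans ?_
      have h2 : (1 : ℝ) ≤ Real.sqrt v := Real.one_le_sqrt.2 (by exact_mod_cast hv)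
      rw [nrm_mul, nrm_mul]
      have h8 : nrm two2 = 8 := by decide
      rw [h8]
      have h4 : (0 : ℝ) ≤ (nrm q : ℝ) * nrm G := by positivity
      push_cast
      nlinarith
    · intro a b hab
      have e1 : two2 ∣ a - b := (dvd_mul_right _ _).trans hab
      have e2 : q ∣ a - b := ((dvd_mul_right _ _).trans (dvd_mul_left _ _)).trans hab
      have e3 : G ∣ a - b := ((dvd_mul_left _ _).trans (dvd_mul_left _ _)).trans hab
      have e4 : prim a ↔ prim b := by
        rw [prim_iff_dvd, prim_iff_dvd]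
        constructor
        · intro h
          have := dvd_sub h e1
          have e : a - 1 - (a - b) = b - 1 := by ring
          rwa [e] at this
        · intro h
          have := dvd_add h e1
          have e : b - 1 + (a - b) = a - 1 := by ring
          rwa [e] at this
      unfold chi
      rw [jac_per hG.ne e3, h.per a b e2]
      by_cases h : prim a
      · rw [if_pos h, if_pos (e4.1 h)]
      · rw [if_neg h, if_neg (fun hh => h (e4.2 hh))]
    · intro a
      by_cases ha : prim a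
      · rw [hmul c a hc1 ha, hc3]
        ring
      · unfold chi
        rw [if_neg ha, if_neg (fun hh => ha (prim_cancel hc1 hh)), neg_zero]

/-- **the half-density mean value** -/
theorem hallP (h : Psi ψ q) {G : ZI} (hG : PS G) {s : Prop} (hs : G ≠ 1 ∨ s) (T : ℕ) :
    ∑ n ∈ SB T, mf (fun π => (1 + chi ψ G s π) / 2) n ≤
      1680 * Real.sqrt (lg (nrm q * nrm G)) * (T / Real.sqrt (lg T)) :=
  hallC (chi_Chi h hG hs) T

end psi

end Pool.Agent.D0H45.QK
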