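import Pool.Agent.D0H45.QK.Bil

/-!
# The sum over the boxes

After the files of helper697 (project XK) and of project Q4.
-/

set_option autoImplicit false

open scoped Classical

namespace Pool.Agent.D0H45.QK

open Finset
open H385 (ZI im1 nrm)
open Pool.Agent.Y699
open Pool.Agent.Y703.CX (jj XX)
open Pool.Agent.Y703.CQ (sg prs c2 S_LA)
open Pool.Agent.D0H45.QK.EQ (HB)

theorem le_XX {H p : ℕ} (hH : 1 ≤ H) (hp : 1 ≤ p) : p ≤ XX H (jj H p) := by
  unfold Pool.Agent.Y703.CX.XX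
  apply Nat.le_floor
  have hp0 : (0 : ℝ) < p := by exact_mod_cast hp
  have hH0 : (0 : ℝ) < H := by exact_mod_cast hH
  refine (Real.exp_log hp0).symm.le.trans (Real.exp_le_exp.2 ?_)
  rw [le_div_iff₀ hH0]
  have h1 := Nat.lt_floor_add_one ((H : ℝ) * Real.log p)
  unfold jj
  linarith

theorem fcc {α : Type} {s : Finset α} {p q : α → Prop} {i1 : DecidablePred p}
    {i2 : DecidablePred q} (h : ∀ x ∈ s, (p x ↔ q x)) :
    (@Finset.filter α p i1 s).card = (@Finset.filter α q i2 s).card := by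
  congr 1
  ext x
  rw [Finset.mem_filter, Finset.mem_filter]
  exact and_congr_right fun hx => h x hx

theorem card_sub {α : Type} (U : Finset α) (K : ℕ) :
    (U.powerset.filter fun J => J.card ≤ K).card ≤ (U.card + 1) ^ K := by
  induction K with
  | zero =>
    have : U.powerset.filter (fun J => J.card ≤ 0) ⊆ {∅} := by
      intro J hJ
      rw [Finset.mem_filter, Nat.le_zero, Finset.card_eq_zero] at hJ
      rw [hJ.2]
      exact Finset.mem_singleton_self _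
    exact Finset.card_le_card this
  | succ K ih =>
    set P := U.powerset.filter fun J => J.card ≤ K with hP
    have h1 : U.powerset.filter (fun J => J.card ≤ K + 1) ⊆
        P ∪ (U ×ˢ P).image fun t => insert t.1 t.2 := by
      intro J hJ
      rw [Finset.mem_filter, Finset.mem_powerset] at hJ
      rw [Finset.mem_union]
      rcases J.eq_empty_or_nonempty with h | ⟨x, hx⟩
      · left
        rw [hP, Finset.mem_filter, Finset.mem_powerset, h]
        exact ⟨Finset.empty_subset _, by simp⟩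
      · right
        rw [Finset.mem_image]
        refine ⟨(x, J.erase x), ?_, Finset.insert_erase hx⟩
        rw [Finset.mem_product, hP, Finset.mem_filter, Finset.mem_powerset]
        refine ⟨hJ.1 hx, (Finset.erase_subset _ _).trans hJ.1, ?_⟩
        rw [Finset.card_erase_of_mem hx]
        omega
    refine (Finset.card_le_card h1).trans ((Finset.card_union_le _ _).trans ?_)
    have h2 : ((U ×ˢ P).image fun t => insert t.1 t.2).card ≤ U.card * P.card := by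
      refine Finset.card_image_le.trans ?_
      rw [Finset.card_product]
    rw [pow_succ]
    nlinarith


variable {L : Cls} {t : ZI → ZMod 2}

/-- the label of a large prime -/
noncomputable def ph (L : Cls) (H : ℕ) (π : ZI) : ℕ × L.M := (bl H π, L.f π)

/-- the key of a set -/
noncomputable def ky (L : Cls) (z H : ℕ) (S : Finset ZI) : Finset ZI × Finset (ℕ × L.M) :=
  (sm z S, (la z S).image (ph L H))

/-- the primes of a block -/
noncomputable def CC (L : Cls) (z H : ℕ) (k : ℕ × L.M) : Finset ZI :=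
  (QB (XX H k.1)).filter fun π => z < nrm π ∧ ph L H π = k

theorem mem_CC {z H : ℕ} (hH : 1 ≤ H) {k : ℕ × L.M} {π : ZI} :
    π ∈ CC L z H k ↔ PP π ∧ z < nrm π ∧ ph L H π = k := by
  unfold CC
  rw [Finset.mem_filter, mem_QB]
  constructor
  · exact fun h => ⟨h.1.2, h.2⟩
  · intro h
    refine ⟨⟨?_, h.1⟩, h.2⟩
    have := le_XX hH (nrm_one_le h.1)
    have h1 : jj H (nrm π) = k.1 := by rw [← h.2.2]; rfl
    rwa [h1] at this

/-- the conditions on a key -/
def Cd (L : Cls) (X K V H : ℕ) (S₀ : Finset ZI) (J : Finset (ℕ × L.M)) : Prop :=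
  ((∏ π ∈ S₀, L.f π) * ∏ i ∈ J, i.2) ∈ L.K ∧
  S₀.card + J.card ≤ K ∧ (∏ π ∈ S₀, nrm π) * ∏ i ∈ J, XX H i.1 ≤ X ∧
  2 * S₀.card + V < J.card

theorem sm_union (z : ℕ) (S : Finset ZI) : sm z S ∪ la z S = S := by
  unfold sm la
  exact Finset.filter_union_filter_not_eq _ _

theorem sm_disj (z : ℕ) (S : Finset ZI) : Disjoint (sm z S) (la z S) := by
  unfold sm la
  exact Finset.disjoint_filter_filter_not _ _ _

theorem prod_split {M : Type} [CommMonoid M] (z : ℕ) (S : Finset ZI) (f : ZI → M) :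
    ∏ p ∈ S, f p = (∏ p ∈ sm z S, f p) * ∏ p ∈ la z S, f p := by
  conv_lhs => rw [← sm_union z S]
  exact Finset.prod_union (sm_disj z S)

theorem ph_inj {H : ℕ} {A : Finset ZI} (h : Set.InjOn (bl H) (A : Set ZI)) :
    Set.InjOn (ph L H) (A : Set ZI) := fun _ ha _ hb hab => h ha hb (congrArg Prod.fst hab)

theorem prod_ph {M : Type} [CommMonoid M] {H : ℕ} {A : Finset ZI}
    (h : Set.InjOn (bl H) (A : Set ZI)) (f : ℕ × L.M → M) :
    ∏ i ∈ A.image (ph L H), f i = ∏ p ∈ A, f (ph L H p) :=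
  Finset.prod_image fun _ ha _ hb hab => ph_inj h ha hb hab

theorem mem_RR {X z H K V : ℕ} (hH : 1 ≤ H) {S : Finset ZI} :
    S ∈ RR L X z H K V ↔ (∀ p ∈ S, PP p) ∧ Set.InjOn (bl H) (la z S : Set ZI) ∧
      Cd L X K V H (ky L z H S).1 (ky L z H S).2 := by
  unfold RR
  rw [Finset.mem_filter, mem_SS]
  have hk1 : (ky L z H S).1 = sm z S := rfl
  have hk2 : (ky L z H S).2 = (la z S).image (ph L H) := rfl
  rw [hk1, hk2]
  have key : Set.InjOn (bl H) (la z S : Set ZI) →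
      ((∏ p ∈ S, L.f p) =
        ((∏ p ∈ sm z S, L.f p) * ∏ i ∈ (la z S).image (ph L H), i.2)) ∧
      (S.card = (sm z S).card + ((la z S).image (ph L H)).card) ∧
      (∏ i ∈ (la z S).image (ph L H), XX H i.1 = ∏ p ∈ la z S, XX H (bl H p)) ∧
      (((la z S).image (ph L H)).card = (la z S).card) := by
    intro h
    refine ⟨?_, ?_, ?_, ?_⟩
    · rw [prod_split z S, prod_ph h (fun i => i.2)]
      rfl
    · rw [Finset.card_image_of_injOn (ph_inj h), ← Finset.card_union_of_disjoint (sm_disj z S),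
        sm_union]
    · rw [prod_ph h (fun i => XX H i.1)]
      rfl
    · rw [Finset.card_image_of_injOn (ph_inj h)]
  unfold Cl Cd
  constructor
  · rintro ⟨⟨⟨h1, h2⟩, h5⟩, h6, h7, h8, h9⟩
    obtain ⟨k2, k3, k4, k5⟩ := key h6
    refine ⟨h1, h6, ?_, ?_, ?_, ?_⟩
    · rw [← k2]; exact h2
    · rw [← k3]; exact h7
    · rw [k4]; exact h8
    · rw [k5]; exact h9
  · rintro ⟨h1, h6, h2, h7, h8, h9⟩
    obtain ⟨k2, k3, k4, k5⟩ := key h6
    rw [← k2] at h2
    rw [← k3] at h7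
    rw [k4] at h8
    rw [k5] at h9
    refine ⟨⟨⟨h1, h2⟩, ?_⟩, h6, h7, h8, h9⟩
    refine le_trans ?_ h8
    rw [prod_split z S]
    apply Nat.mul_le_mul_left
    exact Finset.prod_le_prod' fun p hp =>
      le_XX hH (nrm_one_le (h1 p (Finset.mem_filter.1 hp).1))

section fill
variable {z H : ℕ} {S₀ : Finset ZI} {J : Finset (ℕ × L.M)} {p : J → ZI}

theorem sm_fill (hH : 1 ≤ H) (h₀ : ∀ q ∈ S₀, nrm q ≤ z) (hp : ∀ i : J, p i ∈ CC L z H i) :
    sm z (S₀ ∪ univ.image p) = S₀ := by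
  ext q
  unfold sm
  rw [Finset.mem_filter, Finset.mem_union, Finset.mem_image]
  constructor
  · rintro ⟨h | ⟨i, -, rfl⟩, h2⟩
    · exact h
    · have := ((mem_CC hH).1 (hp i)).2.1
      omega
  · exact fun h => ⟨Or.inl h, h₀ q h⟩

theorem la_fill (hH : 1 ≤ H) (h₀ : ∀ q ∈ S₀, nrm q ≤ z) (hp : ∀ i : J, p i ∈ CC L z H i) :
    la z (S₀ ∪ univ.image p) = univ.image p := by
  ext q
  unfold la
  rw [Finset.mem_filter, Finset.mem_union, Finset.mem_image]
  constructor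
  · rintro ⟨h | h, h2⟩
    · exact absurd (h₀ q h) h2
    · exact h
  · rintro ⟨i, -, rfl⟩
    have := ((mem_CC hH).1 (hp i)).2.1
    exact ⟨Or.inr ⟨i, Finset.mem_univ _, rfl⟩, by omega⟩

theorem ph_fill (hH : 1 ≤ H) (hp : ∀ i : J, p i ∈ CC L z H i) :
    (univ.image p).image (ph L H) = J := by
  ext k
  rw [Finset.mem_image]
  constructor
  · rintro ⟨q, hq, rfl⟩
    rw [Finset.mem_image] at hq
    obtain ⟨i, -, rfl⟩ := hq
    rw [((mem_CC hH).1 (hp i)).2.2]
    exact i.2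
  · intro hk
    exact ⟨p ⟨k, hk⟩, Finset.mem_image_of_mem _ (Finset.mem_univ _),
      ((mem_CC hH).1 (hp ⟨k, hk⟩)).2.2⟩

theorem ky_fill (hH : 1 ≤ H) (h₀ : ∀ q ∈ S₀, nrm q ≤ z) (hp : ∀ i : J, p i ∈ CC L z H i) :
    ky L z H (S₀ ∪ univ.image p) = (S₀, J) := by
  unfold ky
  rw [sm_fill hH h₀ hp, la_fill hH h₀ hp, ph_fill hH hp]

end fill

/-- the facts on the key of a regular set -/
theorem key_facts {X z H K V : ℕ} (hH : 1 ≤ H) {S₀ : Finset ZI} {J : Finset (ℕ × L.M)}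
    (hkey : (S₀, J) ∈ (RR L X z H K V).image (ky L z H)) :
    (∀ q ∈ S₀, PP q) ∧ (∀ q ∈ S₀, nrm q ≤ z) ∧
      Set.InjOn (fun i : ℕ × L.M => i.1) (J : Set (ℕ × L.M)) ∧
      Cd L X K V H S₀ J ∧ (∀ i ∈ J, z ≤ XX H i.1 ∧
        ∃ q : ZI, PP q ∧ z < nrm q ∧ nrm q ≤ X ∧ ph L H q = i) := by
  rw [Finset.mem_image] at hkey
  obtain ⟨W, hW, hWk⟩ := hkey
  have hWX : ∏ p ∈ W, nrm p ≤ X := by
    unfold RR at hW
    rw [Finset.mem_filter, mem_SS] at hW
    exact hW.1.2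
  rw [mem_RR hH, hWk] at hW
  obtain ⟨h1, h2, h3⟩ := hW
  have hS₀ : sm z W = S₀ := congrArg Prod.fst hWk
  have hJ : (la z W).image (ph L H) = J := congrArg Prod.snd hWk
  refine ⟨?_, ?_, ?_, h3, ?_⟩
  · intro q hq
    rw [← hS₀] at hq
    exact h1 q (Finset.mem_filter.1 hq).1
  · intro q hq
    rw [← hS₀] at hq
    exact (Finset.mem_filter.1 hq).2
  · intro a ha b hb hab
    rw [Finset.mem_coe, ← hJ, Finset.mem_image] at ha hb
    obtain ⟨x, hx, rfl⟩ := ha
    obtain ⟨y, hy, rfl⟩ := hb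
    have h4 : x = y := h2 (Finset.mem_coe.2 hx) (Finset.mem_coe.2 hy) hab
    rw [h4]
  · intro i hi
    rw [← hJ, Finset.mem_image] at hi
    obtain ⟨q, hq, rfl⟩ := hi
    have hqW := (Finset.mem_filter.1 hq).1
    have hqz := (Finset.mem_filter.1 hq).2
    have hqp := h1 q hqW
    have hqX : nrm q ≤ X := (Finset.single_le_prod' (f := fun q => nrm q)
      (fun q hq => nrm_one_le (h1 q hq)) hqW).trans hWX
    refine ⟨?_, q, hqp, by omega, hqX, rfl⟩
    have h5 : nrm q ≤ XX H (bl H q) := le_XX hH (nrm_one_le hqp)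
    show z ≤ XX H (bl H q)
    omega

theorem key_bij {X z H K V : ℕ} (hH : 1 ≤ H) {S₀ : Finset ZI} {J : Finset (ℕ × L.M)}
    (hkey : (S₀, J) ∈ (RR L X z H K V).image (ky L z H)) (P : Finset ZI → Prop) :
    ((Fintype.piFinset fun i : J => CC L z H i).filter fun p => P (S₀ ∪ univ.image p)).card =
      ((RR L X z H K V).filter fun S => ky L z H S = (S₀, J) ∧ P S).card := by
  obtain ⟨h₀O, h₀, hJi, hCd, hJf⟩ := key_facts hH hkey
  apply Finset.card_bij (fun (p : J → ZI) _ => S₀ ∪ univ.image p)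
  · intro p hp
    rw [Finset.mem_filter, Fintype.mem_piFinset] at hp
    obtain ⟨hp, hP⟩ := hp
    have hk := ky_fill hH h₀ hp
    rw [Finset.mem_filter]
    refine ⟨?_, hk, hP⟩
    rw [mem_RR hH, hk]
    refine ⟨?_, ?_, hCd⟩
    · intro q hq
      rw [Finset.mem_union, Finset.mem_image] at hq
      rcases hq with hq | ⟨i, -, rfl⟩
      · exact h₀O q hq
      · exact ((mem_CC hH).1 (hp i)).1
    · rw [la_fill hH h₀ hp]
      intro a ha b hb hab
      rw [Finset.mem_coe, Finset.mem_image] at ha hb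
      obtain ⟨i, -, rfl⟩ := ha
      obtain ⟨j, -, rfl⟩ := hb
      have h1 := ((mem_CC hH).1 (hp i)).2.2
      have h2 := ((mem_CC hH).1 (hp j)).2.2
      have h3 : i.1.1 = j.1.1 := by
        rw [← h1, ← h2]
        exact hab
      have h4 : i = j := Subtype.ext (hJi (Finset.mem_coe.2 i.2) (Finset.mem_coe.2 j.2) h3)
      rw [h4]
  · intro p hp p' hp' h
    rw [Finset.mem_filter, Fintype.mem_piFinset] at hp hp'
    have h1 := la_fill hH h₀ hp.1
    rw [h, la_fill hH h₀ hp'.1] at h1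
    funext i
    have h2 : p i ∈ univ.image p' := by
      rw [h1]
      exact Finset.mem_image_of_mem _ (Finset.mem_univ _)
    rw [Finset.mem_image] at h2
    obtain ⟨j, -, hj⟩ := h2
    have h3 := ((mem_CC hH).1 (hp.1 i)).2.2
    have h4 := ((mem_CC hH).1 (hp'.1 j)).2.2
    rw [hj, h3] at h4
    rw [← hj, Subtype.ext h4]
  · intro S hS
    rw [Finset.mem_filter] at hS
    obtain ⟨hSR, hSk, hSP⟩ := hS
    rw [mem_RR hH] at hSR
    obtain ⟨hSO, hSI, -⟩ := hSR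
    have hk1 : sm z S = S₀ := congrArg Prod.fst hSk
    have hk2 : (la z S).image (ph L H) = J := congrArg Prod.snd hSk
    have hex : ∀ i : J, ∃ q ∈ la z S, ph L H q = i := by
      rintro ⟨i, hi⟩
      rw [← hk2, Finset.mem_image] at hi
      exact hi
    choose p hp1 hp2 using hex
    have him : univ.image p = la z S := by
      ext q
      rw [Finset.mem_image]
      constructor
      · rintro ⟨i, -, rfl⟩
        exact hp1 i
      · intro hq
        have hjq : ph L H q ∈ J := by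
          rw [← hk2]
          exact Finset.mem_image_of_mem _ hq
        exact ⟨⟨ph L H q, hjq⟩, Finset.mem_univ _, ph_inj hSI (Finset.mem_coe.2 (hp1 _))
          (Finset.mem_coe.2 hq) (hp2 ⟨ph L H q, hjq⟩)⟩
    have hSe : S₀ ∪ univ.image p = S := by rw [him, ← hk1, sm_union]
    refine ⟨p, ?_, hSe⟩
    rw [Finset.mem_filter, Fintype.mem_piFinset, hSe]
    refine ⟨fun i => (mem_CC hH).2 ⟨hSO _ (Finset.mem_filter.1 (hp1 i)).1,
      not_le.1 (Finset.mem_filter.1 (hp1 i)).2, hp2 i⟩, hSP⟩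

theorem root_le24 {x y C κ : ℝ} {z : ℕ} (_hx : 0 ≤ x) (hy : 0 ≤ y) (hκ : 0 ≤ κ) (hz : 1 ≤ z)
    (h : x ^ 24 * z ≤ C * y ^ 24) (hκz : C ≤ κ ^ 24 * z) : x ≤ κ * y := by
  have hz0 : (0 : ℝ) < z := by exact_mod_cast hz
  have h1 : x ^ 24 * z ≤ (κ * y) ^ 24 * z := by
    calc x ^ 24 * z ≤ C * y ^ 24 := h
      _ ≤ (κ ^ 24 * z) * y ^ 24 := by gcongr
      _ = (κ * y) ^ 24 * z := by ring
  have h2 : x ^ 24 ≤ (κ * y) ^ 24 := le_of_mul_le_mul_right h1 hz0
  exact le_of_pow_le_pow_left₀ (by norm_num) (by positivity) h2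

/-- the bilinear bound, for a constant -/
def BilB (C₁ : ℝ) : Prop := ∀ (P Q : Finset ZI) (A B z : ℕ) (c d : ZI → ℂ),
  (∀ π ∈ P, PP π ∧ nrm π ≤ A) → (∀ ρ ∈ Q, PP ρ ∧ nrm ρ ≤ B) → Disjoint P Q →
  1 ≤ z → z ≤ A → z ≤ B → (∀ π, ‖c π‖ ≤ 1) → (∀ ρ, ‖d ρ‖ ≤ 1) →
  ‖∑ π ∈ P, ∑ ρ ∈ Q, c π * d ρ * sg (nq π ρ)‖ ^ 24 * z ≤ C₁ * ((A : ℝ) * B) ^ 24

theorem hb_box {C₁ : ℝ} (hb1 : BilB C₁)
    {ι : Type} (D : ι → Finset ZI) (X : ι → ℕ) {z : ℕ} {κ : ℝ}
    (hz : 1 ≤ z) (hκ : 0 ≤ κ) (h1 : C₁ ≤ κ ^ 24 * z)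
    (hX : ∀ i, z ≤ X i) (hD : ∀ i, ∀ π ∈ D i, PP π ∧ nrm π ≤ X i)
    (hdis : ∀ i l, i ≠ l → Disjoint (D i) (D l)) (J : Finset ι) :
    HB nq J D X κ := by
  intro i l hil _ c d hc hd
  exact root_le24 (norm_nonneg _) (by positivity) hκ hz (hb1 (D i) (D l) (X i) (X l) z c d
    (hD i) (hD l) (hdis i l hil) hz (hX i) (hX l) hc hd) h1

theorem card_QB_le {V : ℕ} (hV : 1 ≤ V) : (QB V).card ≤ 9 * V := by
  have h1 : QB V ⊆ SB V := by
    intro π hπ
    rw [mem_QB] at hπ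
    rw [mem_SB]
    exact ⟨hπ.1, hπ.2.ps⟩
  have h2 := (Finset.card_le_card h1)
  have h3 := card_SB_le hV
  have h4 : ((QB V).card : ℝ) ≤ 9 * V := le_trans (by exact_mod_cast h2) h3
  exact_mod_cast h4

/-- the box theorem with the decidability of equality as a variable -/
theorem box_inst {α : Type} {s : α → α → ZMod 2} {t : α → ZMod 2} {P : α → Prop}
    (hs : ∀ p q, P p → P q → s p q = s q p)
    (hs0 : ∀ p, P p → s p p = 0) (hLA : S_LA) (ι : Type) [Fintype ι] [inst : DecidableEq ι]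
    [insa : DecidableEq α] (lo : LinearOrder ι)
    (C : ι → Finset α) (X : ι → ℕ) (κ : ℝ) (S₀ : Finset α) (hκ : 0 ≤ κ)
    (hCX : ∀ i, (C i).card ≤ X i) (hHB : HB s univ C X κ) (hS₀ : ∀ u ∈ S₀, P u)
    (hC : ∀ i, ∀ p ∈ C i, P p ∧ p ∉ S₀) (hdis : ∀ i l, i ≠ l → Disjoint (C i) (C l))
    (hcard : S₀.card + 1 < Fintype.card ι) :
    |(((Fintype.piFinset C).filter fun p => Nd s t S₀ (univ.image p) ∧
        Gd s t (S₀ ∪ univ.image p)).card : ℝ) -
      c2 * (((Fintype.piFinset C).filter fun p => Nd s t S₀ (univ.image p)).card : ℝ)| ≤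
    2 * (4 ^ (S₀.card + 1) / 2 ^ (Fintype.card ι - 1)) *
      (((Fintype.piFinset C).filter fun p => Nd s t S₀ (univ.image p)).card : ℝ) +
    2 ^ ((2 * S₀.card + 1) * Fintype.card ι + Fintype.card ι * Fintype.card ι) *
      (κ * ∏ j, (X j : ℝ)) := by
  have h := t_BOX (t := t) hs hs0 hLA ι C X κ S₀ hκ hCX hHB hS₀ hC hdis hcard
  have e : inst = fun a b => lo.toDecidableEq a b := Subsingleton.elim _ _
  have e2 : insa = fun a b => Classical.propDecidable (a = b) := Subsingleton.elim _ _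
  subst e
  subst e2
  exact h

theorem box_dec (hLA : S_LA) (ι : Type) [Fintype ι] [DecidableEq ι]
    (lo : LinearOrder ι) (C : ι → Finset ZI) (X : ι → ℕ) (κ : ℝ) (S₀ : Finset ZI) (hκ : 0 ≤ κ)
    (hCX : ∀ i, (C i).card ≤ X i) (hHB : HB nq univ C X κ) (hS₀ : ∀ u ∈ S₀, PP u)
    (hC : ∀ i, ∀ p ∈ C i, PP p ∧ p ∉ S₀) (hdis : ∀ i l, i ≠ l → Disjoint (C i) (C l))
    (hcard : S₀.card + 1 < Fintype.card ι) :
    |(((Fintype.piFinset C).filter fun p => Nd nq t S₀ (univ.image p) ∧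
        Gd nq t (S₀ ∪ univ.image p)).card : ℝ) -
      c2 * (((Fintype.piFinset C).filter fun p => Nd nq t S₀ (univ.image p)).card : ℝ)| ≤
    2 * (4 ^ (S₀.card + 1) / 2 ^ (Fintype.card ι - 1)) *
      (((Fintype.piFinset C).filter fun p => Nd nq t S₀ (univ.image p)).card : ℝ) +
    2 ^ ((2 * S₀.card + 1) * Fintype.card ι + Fintype.card ι * Fintype.card ι) *
      (κ * ∏ j, (X j : ℝ)) :=
  box_inst (P := PP) nq_symm nq_self hLA ι lo C X κ S₀ hκ hCX hHB hS₀ hC hdis hcard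

theorem per_key (hLA : S_LA) {C₁ : ℝ} (hb1 : BilB C₁)
    {X z H k V : ℕ} {κ : ℝ} (hH : 1 ≤ H) (hz : 1 ≤ z) (hV : 1 ≤ V) (hκ : 0 ≤ κ)
    (h1 : C₁ ≤ κ ^ 24 * z) {S₀ : Finset ZI} {J : Finset (ℕ × L.M)}
    (hkey : (S₀, J) ∈ (RR L X z H k V).image (ky L z H)) :
    |(((RR L X z H k V).filter fun S => ky L z H S = (S₀, J) ∧
        (Nd nq t (sm z S) (la z S) ∧ Gd nq t S)).card : ℝ) -
      c2 * (((RR L X z H k V).filter fun S => ky L z H S = (S₀, J) ∧
        Nd nq t (sm z S) (la z S)).card : ℝ)| ≤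
    8 * (1 / 2 : ℝ) ^ V *
      (((RR L X z H k V).filter fun S => ky L z H S = (S₀, J) ∧ True).card : ℝ) +
      (3 ^ (9 * k ^ 2) * κ) * (X * (1 / ((∏ p ∈ S₀, nrm p : ℕ) : ℝ))) := by
  obtain ⟨h₀O, h₀, hJi, hCd, hJf⟩ := key_facts hH hkey
  obtain ⟨c1, c4, c5, c6⟩ := hCd
  have hcJ : Fintype.card J = J.card := Fintype.card_coe J
  have hCmem : ∀ i : J, ∀ p ∈ CC L z H i, PP p ∧ z < nrm p ∧ nrm p ≤ XX H i.1.1 := by
    intro i p hp
    obtain ⟨k1, k2, k3⟩ := (mem_CC hH).1 hp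
    refine ⟨k1, k2, ?_⟩
    unfold CC at hp
    rw [Finset.mem_filter, mem_QB] at hp
    exact hp.1.1
  have hdis : ∀ i l : J, i ≠ l → Disjoint (CC L z H i.1) (CC L z H l.1) := by
    intro i l hil
    rw [Finset.disjoint_left]
    intro p hp hp'
    have h5 := ((mem_CC hH).1 hp).2.2
    have h6 := ((mem_CC hH).1 hp').2.2
    exact hil (Subtype.ext (h5.symm.trans h6))
  have hzX : ∀ i : J, z ≤ XX H i.1.1 := fun i => (hJf i i.2).1
  have hHB : HB nq univ (fun i : J => CC L z H i) (fun i : J => 9 * XX H i.1.1) κ :=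
    hb_box hb1 _ _ hz hκ h1 (fun i => by have := hzX i; omega)
      (fun i p hp => by
        obtain ⟨k1, k2, k3⟩ := hCmem i p hp
        exact ⟨k1, by omega⟩) hdis univ
  have hcard : ∀ i : J, (CC L z H i.1).card ≤ 9 * XX H i.1.1 := by
    intro i
    refine (Finset.card_filter_le _ _).trans (card_QB_le ?_)
    have := hzX i
    omega
  have hinj : Function.Injective (fun i : J => i.1.1) := by
    intro a b hab
    exact Subtype.ext (hJi (Finset.mem_coe.2 a.2) (Finset.mem_coe.2 b.2) hab)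
  let lo : LinearOrder J := LinearOrder.lift' (fun i : J => i.1.1) hinj
  have hbox := box_dec (t := t) hLA J lo (fun i : J => CC L z H i)
    (fun i : J => 9 * XX H i.1.1) κ S₀ hκ hcard hHB h₀O (fun i p hp => by
      obtain ⟨k1, k2, k3⟩ := hCmem i p hp
      refine ⟨k1, fun h => ?_⟩
      have := h₀ p h
      omega) hdis (by rw [hcJ]; omega)
  have e1 : (((Fintype.piFinset fun i : J => CC L z H i).filter
      fun p => Nd nq t S₀ (univ.image p) ∧ Gd nq t (S₀ ∪ univ.image p)).card) =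
      ((RR L X z H k V).filter fun S => ky L z H S = (S₀, J) ∧
        (Nd nq t (sm z S) (la z S) ∧ Gd nq t S)).card := by
    refine Eq.trans (fcc ?_) ((key_bij hH hkey
      (fun S => Nd nq t (sm z S) (la z S) ∧ Gd nq t S)).trans (fcc fun _ _ => Iff.rfl))
    intro p hp
    rw [Fintype.mem_piFinset] at hp
    rw [sm_fill hH h₀ hp, la_fill hH h₀ hp]
  have e2 : (((Fintype.piFinset fun i : J => CC L z H i).filter
      fun p => Nd nq t S₀ (univ.image p)).card) =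
      ((RR L X z H k V).filter fun S => ky L z H S = (S₀, J) ∧
        Nd nq t (sm z S) (la z S)).card := by
    refine Eq.trans (fcc ?_) ((key_bij hH hkey (fun S => Nd nq t (sm z S) (la z S))).trans
      (fcc fun _ _ => Iff.rfl))
    intro p hp
    rw [Fintype.mem_piFinset] at hp
    rw [sm_fill hH h₀ hp, la_fill hH h₀ hp]
  rw [← e1, ← e2]
  have e3 : (((Fintype.piFinset fun i : J => CC L z H i).filter
      fun p => Nd nq t S₀ (univ.image p)).card : ℝ) ≤
      (((RR L X z H k V).filter fun S => ky L z H S = (S₀, J) ∧ True).card : ℝ) := by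
    rw [e2]
    have : (RR L X z H k V).filter (fun S => ky L z H S = (S₀, J) ∧
        Nd nq t (sm z S) (la z S)) ⊆
        (RR L X z H k V).filter fun S => ky L z H S = (S₀, J) ∧ True := by
      intro S hS
      rw [Finset.mem_filter] at hS ⊢
      exact ⟨hS.1, hS.2.1, trivial⟩
    exact_mod_cast Finset.card_le_card this
  refine hbox.trans ?_
  have hr : 2 * ((4 : ℝ) ^ (S₀.card + 1) / 2 ^ (Fintype.card J - 1)) ≤ 8 * (1 / 2 : ℝ) ^ V := by
    have h4 : (4 : ℝ) ^ (S₀.card + 1) / 2 ^ (Fintype.card J - 1) ≤ 4 * (1 / 2 : ℝ) ^ V := by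
      rw [div_le_iff₀ (by positivity), hcJ]
      have h5 : (2 : ℝ) ^ (2 * S₀.card + V) ≤ 2 ^ (J.card - 1) :=
        pow_le_pow_right₀ (by norm_num) (by omega)
      have h6 : 4 * (1 / 2 : ℝ) ^ V * 2 ^ (2 * S₀.card + V) = 4 ^ (S₀.card + 1) := by
        have h7 : (1 / 2 : ℝ) ^ V * 2 ^ V = 1 := by
          rw [← mul_pow]
          norm_num
        have h8 : ((2 : ℝ) ^ 2) ^ S₀.card = 4 ^ S₀.card := by norm_num
        rw [pow_add 2, pow_mul, h8, pow_succ]
        calc 4 * (1 / 2 : ℝ) ^ V * (4 ^ S₀.card * 2 ^ V) =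
              4 ^ S₀.card * 4 * ((1 / 2 : ℝ) ^ V * 2 ^ V) := by ring
          _ = _ := by rw [h7, mul_one]
      calc (4 : ℝ) ^ (S₀.card + 1) = 4 * (1 / 2 : ℝ) ^ V * 2 ^ (2 * S₀.card + V) := h6.symm
        _ ≤ _ := by gcongr
    linarith
  have hJK : J.card ≤ k := by omega
  have hSK : S₀.card ≤ k := by omega
  have hN0 : (0 : ℝ) < ((∏ p ∈ S₀, nrm p : ℕ) : ℝ) := by
    exact_mod_cast Finset.prod_pos fun p hp => nrm_one_le (h₀O p hp)
  have hprod : ∏ j : J, ((9 * XX H j.1.1 : ℕ) : ℝ) ≤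
      3 ^ (2 * k) * (X * (1 / ((∏ p ∈ S₀, nrm p : ℕ) : ℝ))) := by
    have h5 : ∏ j : J, ((9 * XX H j.1.1 : ℕ) : ℝ) =
        9 ^ J.card * ((∏ i ∈ J, XX H i.1 : ℕ) : ℝ) := by
      rw [← Finset.prod_coe_sort J (fun i => XX H i.1)]
      push_cast
      rw [Finset.prod_mul_distrib, Finset.prod_const, Finset.card_univ, hcJ]
    have h6 : ((∏ i ∈ J, XX H i.1 : ℕ) : ℝ) ≤ X * (1 / ((∏ p ∈ S₀, nrm p : ℕ) : ℝ)) := by
      rw [mul_one_div, le_div_iff₀ hN0, mul_comm]
      exact_mod_cast c5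
    have h7 : (9 : ℝ) ^ J.card ≤ 3 ^ (2 * k) := by
      calc (9 : ℝ) ^ J.card = 3 ^ (2 * J.card) := by rw [pow_mul]; norm_num
        _ ≤ 3 ^ (2 * k) := pow_le_pow_right₀ (by norm_num) (by omega)
    rw [h5]
    gcongr
  have hpw : (2 : ℝ) ^ ((2 * S₀.card + 1) * Fintype.card J + Fintype.card J * Fintype.card J) *
      3 ^ (2 * k) ≤ 3 ^ (9 * k ^ 2) := by
    have h6 : k ≤ k * k := by
      rcases Nat.eq_zero_or_pos k with h | h
      · rw [h]
      · exact Nat.le_mul_of_pos_left k h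
    have h7 : (2 : ℝ) ^ ((2 * S₀.card + 1) * Fintype.card J + Fintype.card J * Fintype.card J) ≤
        3 ^ (4 * (k * k)) := by
      refine (pow_le_pow_left₀ (by norm_num) (by norm_num : (2 : ℝ) ≤ 3) _).trans ?_
      apply pow_le_pow_right₀ (by norm_num)
      rw [hcJ]
      have h5 : S₀.card * J.card ≤ k * k := Nat.mul_le_mul hSK hJK
      have h8 : J.card * J.card ≤ k * k := Nat.mul_le_mul hJK hJK
      have h9 : (2 * S₀.card + 1) * J.card = 2 * (S₀.card * J.card) + J.card := by ring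
      omega
    calc (2 : ℝ) ^ ((2 * S₀.card + 1) * Fintype.card J + Fintype.card J * Fintype.card J) *
          3 ^ (2 * k) ≤ 3 ^ (4 * (k * k)) * 3 ^ (2 * k) := by gcongr
      _ = 3 ^ (4 * (k * k) + 2 * k) := (pow_add _ _ _).symm
      _ ≤ 3 ^ (9 * k ^ 2) := by
          apply pow_le_pow_right₀ (by norm_num)
          have e : k ^ 2 = k * k := sq k
          rw [e]
          omega
  refine add_le_add ?_ ?_
  · gcongr
  · have hX1 : (0 : ℝ) ≤ X * (1 / ((∏ p ∈ S₀, nrm p : ℕ) : ℝ)) := by positivity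
    set E : ℝ := (2 : ℝ) ^ ((2 * S₀.card + 1) * Fintype.card J + Fintype.card J * Fintype.card J)
      with hE
    have hE0 : 0 ≤ E := by positivity
    calc E * (κ * ∏ j : J, ((9 * XX H j.1.1 : ℕ) : ℝ)) ≤
        E * (κ * (3 ^ (2 * k) * (X * (1 / ((∏ p ∈ S₀, nrm p : ℕ) : ℝ))))) := by gcongr
      _ = (E * 3 ^ (2 * k)) * (κ * (X * (1 / ((∏ p ∈ S₀, nrm p : ℕ) : ℝ)))) := by ring
      _ ≤ 3 ^ (9 * k ^ 2) * (κ * (X * (1 / ((∏ p ∈ S₀, nrm p : ℕ) : ℝ)))) := by gcongr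
      _ = _ := by ring

end Pool.Agent.D0H45.QK
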