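import Pool.Agent.D0H45.QK.Key

/-!
# The sum over the boxes, continued
-/

set_option autoImplicit false

open scoped Classical

namespace Pool.Agent.D0H45.QK

open Finset
open H385 (ZI im1 nrm)
open Pool.Agent.Y699
open Pool.Agent.Y703.CX (jj XX)
open Pool.Agent.Y703.CQ (sg prs c2 S_LA)

variable {L : Cls} {t : ZI → ZMod 2}

theorem lg_le {X : ℕ} (hX : 1 ≤ X) : lg X ≤ 2 * (1 + Real.log X) := by
  unfold lg
  have h1 : ((2 ^ Nat.log 2 X : ℕ) : ℝ) ≤ X := by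
    exact_mod_cast Nat.pow_log_le_self 2 (by omega)
  have h2 : (Nat.log 2 X : ℝ) * Real.log 2 ≤ Real.log X := by
    rw [← Real.log_pow]
    push_cast at h1
    exact Real.log_le_log (by positivity) h1
  have h3 : (1 / 2 : ℝ) ≤ Real.log 2 := by have := Real.log_two_gt_d9; linarith
  have h4 : (0 : ℝ) ≤ Nat.log 2 X := Nat.cast_nonneg _
  nlinarith

theorem sum_inv {X : ℕ} (hX : 1 ≤ X) {A : Finset (Finset ZI)} (hA : ∀ S ∈ A, (∀ p ∈ S, PP p) ∧
    ∏ p ∈ S, nrm p ≤ X) : ∑ S ∈ A, (1 : ℝ) / ((∏ p ∈ S, nrm p : ℕ) : ℝ) ≤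
      36 * (1 + Real.log X) := by
  have hinj : Set.InjOn (fun S : Finset ZI => ∏ p ∈ S, p) (A : Set (Finset ZI)) := by
    intro S hS T hT h
    have h1 := (PS_prod (hA S hS).1).2
    have h2 := (PS_prod (hA T hT).1).2
    simp only at h
    rw [← h1, ← h2, h]
  have h1 : ∑ S ∈ A, (1 : ℝ) / ((∏ p ∈ S, nrm p : ℕ) : ℝ) =
      ∑ n ∈ A.image (fun S => ∏ p ∈ S, p), (1 : ℝ) / (nrm n : ℝ) := by
    rw [Finset.sum_image (f := fun n : ZI => (1 : ℝ) / (nrm n : ℝ)) hinj]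
    refine Finset.sum_congr rfl fun S _ => ?_
    rw [nrm_prod]
  rw [h1]
  have h2 : A.image (fun S => ∏ p ∈ S, p) ⊆ SB X := by
    intro n hn
    rw [Finset.mem_image] at hn
    obtain ⟨S, hS, rfl⟩ := hn
    rw [mem_SB, nrm_prod]
    exact ⟨(hA S hS).2, (PS_prod (hA S hS).1).1⟩
  refine (Finset.sum_le_sum_of_subset_of_nonneg h2 fun n _ _ => by positivity).trans ?_
  have h3 := hsum_SB X
  have h4 := lg_le hX
  linarith

theorem keg_err {X z H k V N : ℕ} {κ : ℝ} (hX : 1 ≤ X) (hH : 1 ≤ H) (hz : 1 ≤ z) (hκ : 0 ≤ κ)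
    (hN : (H : ℝ) * Real.log X < N) {T : Finset (Finset ZI × Finset (ℕ × L.M))}
    (hT : ∀ k' ∈ T, k' ∈ (RR L X z H k V).image (ky L z H)) :
    ∑ k' ∈ T, (3 ^ (9 * k ^ 2) * κ) * (X * (1 / ((∏ p ∈ k'.1, nrm p : ℕ) : ℝ))) ≤
      (Fintype.card L.M * N + 1 : ℝ) ^ k * (3 ^ (9 * k ^ 2 + 9) * κ) * (X * (1 + Real.log X)) := by
  -- the errors
  set U : Finset (ℕ × L.M) := range N ×ˢ univ with hU
  set A := T.image Prod.fst with hA
  have hAp : ∀ S ∈ A, (∀ p ∈ S, PP p) ∧ ∏ p ∈ S, nrm p ≤ X := by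
    intro S hS
    rw [hA, Finset.mem_image] at hS
    obtain ⟨⟨S₀, J⟩, hk, rfl⟩ := hS
    obtain ⟨h₀O, h₀, hJi, hCd, hJf⟩ := key_facts hH (hT _ hk)
    refine ⟨fun p hp => h₀O p hp, ?_⟩
    have h4 : 1 ≤ ∏ i ∈ J, XX H i.1 := by
      apply Nat.one_le_iff_ne_zero.2
      rw [Finset.prod_ne_zero_iff]
      intro i hi
      exact Nat.one_le_iff_ne_zero.1 (hz.trans (hJf i hi).1)
    calc ∏ p ∈ S₀, nrm p = (∏ p ∈ S₀, nrm p) * 1 := (mul_one _).symm
      _ ≤ (∏ p ∈ S₀, nrm p) * ∏ i ∈ J, XX H i.1 := Nat.mul_le_mul_left _ h4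
      _ ≤ X := hCd.2.2.1
  have hsub : T ⊆ A ×ˢ (U.powerset.filter fun J => J.card ≤ k) := by
    intro k' hk
    obtain ⟨S₀, J⟩ := k'
    rw [Finset.mem_product, Finset.mem_filter, Finset.mem_powerset]
    obtain ⟨h₀O, h₀, hJi, hCd, hJf⟩ := key_facts hH (hT _ hk)
    have hc := hCd.2.1
    refine ⟨Finset.mem_image_of_mem _ hk, ?_, (Nat.le_add_left _ _).trans hc⟩
    intro i hi
    obtain ⟨k2, q, hq, hzq, hqX, hqi⟩ := hJf i hi
    rw [hU, Finset.mem_product, Finset.mem_range]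
    refine ⟨?_, Finset.mem_univ _⟩
    have hH0 : (0 : ℝ) < H := by exact_mod_cast hH
    have hq0 : (0 : ℝ) < nrm q := by exact_mod_cast nrm_one_le hq
    have h4 : (H : ℝ) * Real.log (nrm q) ≤ H * Real.log X := by
      apply mul_le_mul_of_nonneg_left _ hH0.le
      exact Real.log_le_log hq0 (by exact_mod_cast hqX)
    have h5 : ((⌊(H : ℝ) * Real.log (nrm q)⌋₊ : ℕ) : ℝ) < N :=
      (Nat.floor_le (mul_nonneg hH0.le (Real.log_natCast_nonneg _))).trans_lt (h4.trans_lt hN)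
    have h6 : bl H q < N := by
      unfold bl jj
      exact_mod_cast h5
    rw [← hqi]
    exact h6
  have hX0 : (0 : ℝ) ≤ X := Nat.cast_nonneg X
  have hcU : ((U.powerset.filter fun J => J.card ≤ k).card : ℝ) ≤
      (Fintype.card L.M * N + 1 : ℝ) ^ k := by
    have h4 := card_sub U k
    have h5 : U.card = N * Fintype.card L.M := by
      rw [hU, Finset.card_product, Finset.card_range, Finset.card_univ]
    rw [h5] at h4
    have h6 : ((U.powerset.filter fun J => J.card ≤ k).card : ℝ) ≤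
        ((N * Fintype.card L.M + 1 : ℕ) : ℝ) ^ k := by
      exact_mod_cast h4
    refine h6.trans (le_of_eq ?_)
    push_cast
    ring
  have hlogX : 0 ≤ 1 + Real.log X := by
    have := Real.log_natCast_nonneg X
    linarith
  calc ∑ k' ∈ T, (3 ^ (9 * k ^ 2) * κ) * (X * (1 / ((∏ p ∈ k'.1, nrm p : ℕ) : ℝ)))
      ≤ ∑ k' ∈ A ×ˢ (U.powerset.filter fun J => J.card ≤ k),
        (3 ^ (9 * k ^ 2) * κ) * (X * (1 / ((∏ p ∈ k'.1, nrm p : ℕ) : ℝ))) :=
        Finset.sum_le_sum_of_subset_of_nonneg hsub fun _ _ _ => by positivity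
    _ = ((U.powerset.filter fun J => J.card ≤ k).card : ℝ) * ((3 ^ (9 * k ^ 2) * κ) *
        (X * ∑ S ∈ A, 1 / ((∏ p ∈ S, nrm p : ℕ) : ℝ))) := by
        rw [Finset.sum_product]
        simp only [Finset.sum_const, nsmul_eq_mul]
        rw [← Finset.mul_sum, ← Finset.mul_sum, ← Finset.mul_sum]
    _ ≤ (Fintype.card L.M * N + 1 : ℝ) ^ k *
        ((3 ^ (9 * k ^ 2) * κ) * (X * (36 * (1 + Real.log X)))) := by
        have h4 := sum_inv hX hAp
        have h5 : (0 : ℝ) ≤ ∑ S ∈ A, 1 / ((∏ p ∈ S, nrm p : ℕ) : ℝ) :=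
          Finset.sum_nonneg fun _ _ => by positivity
        gcongr
    _ = (Fintype.card L.M * N + 1 : ℝ) ^ k * ((3 ^ (9 * k ^ 2) * 36) * κ) *
        (X * (1 + Real.log X)) := by ring
    _ ≤ _ := by
        have h6 : (3 : ℝ) ^ (9 * k ^ 2) * 36 ≤ 3 ^ (9 * k ^ 2 + 9) := by
          rw [pow_add]
          refine mul_le_mul_of_nonneg_left ?_ (by positivity)
          norm_num
        gcongr

/-- **The sum over the boxes.** -/
theorem t_KEY (hLA : S_LA) : ∃ C : ℝ, 1 ≤ C ∧ ∀ (L : Cls) (t : ZI → ZMod 2)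
    (X z H k V N : ℕ) (κ : ℝ), 1 ≤ X → 1 ≤ H → 1 ≤ z → 1 ≤ V → 0 ≤ κ → C ≤ κ ^ 24 * z →
    (H : ℝ) * Real.log X < N →
    |(((RR L X z H k V).filter fun S => Nd nq t (sm z S) (la z S) ∧ Gd nq t S).card : ℝ) -
        c2 * (((RR L X z H k V).filter fun S => Nd nq t (sm z S) (la z S)).card : ℝ)| ≤
      8 * (1 / 2 : ℝ) ^ V * ((RR L X z H k V).card : ℝ) +
      (Fintype.card L.M * N + 1 : ℝ) ^ k * (3 ^ (9 * k ^ 2 + 9) * κ) * (X * (1 + Real.log X)) := by
  obtain ⟨C₁, hC₁, hb1⟩ := t_BIL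
  refine ⟨C₁, hC₁, ?_⟩
  intro L t X z H k V N κ hX hH hz hV hκ h1 hN
  set T := (RR L X z H k V).image (ky L z H) with hT
  have hfib : ∀ P : Finset ZI → Prop, (((RR L X z H k V).filter fun S => P S).card : ℝ) =
      ∑ k' ∈ T, (((RR L X z H k V).filter fun S => ky L z H S = k' ∧ P S).card : ℝ) := by
    intro P
    rw [Finset.card_eq_sum_card_fiberwise (f := ky L z H) (t := T) (by
      intro S hS
      rw [Finset.mem_coe, Finset.mem_filter] at hS
      exact Finset.mem_coe.2 (Finset.mem_image_of_mem _ hS.1))]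
    push_cast
    refine Finset.sum_congr rfl fun k' _ => ?_
    congr 2
    ext S
    simp only [Finset.mem_filter]
    tauto
  have hall : ((RR L X z H k V).card : ℝ) =
      ∑ k' ∈ T, (((RR L X z H k V).filter fun S => ky L z H S = k' ∧ True).card : ℝ) := by
    rw [Finset.card_eq_sum_card_fiberwise (f := ky L z H) (t := T) (by
      intro S hS
      exact Finset.mem_coe.2 (Finset.mem_image_of_mem _ hS))]
    push_cast
    exact Finset.sum_congr rfl fun k' _ => congrArg _ (fcc fun _ _ => by tauto)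
  have q1 : (((RR L X z H k V).filter fun S => Nd nq t (sm z S) (la z S) ∧ Gd nq t S).card : ℝ) =
      ∑ k' ∈ T, (((RR L X z H k V).filter fun S => ky L z H S = k' ∧
        (Nd nq t (sm z S) (la z S) ∧ Gd nq t S)).card : ℝ) :=
    (congrArg _ (fcc fun _ _ => Iff.rfl)).trans
      ((hfib fun S => Nd nq t (sm z S) (la z S) ∧ Gd nq t S).trans
      (Finset.sum_congr rfl fun k' _ => congrArg _ (fcc fun _ _ => Iff.rfl)))
  rw [q1, hfib, Finset.mul_sum, ← Finset.sum_sub_distrib, hall, Finset.mul_sum]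
  refine (Finset.abs_sum_le_sum_abs _ _).trans ?_
  have h3 : ∑ k' ∈ T, |(((RR L X z H k V).filter fun S => ky L z H S = k' ∧
      (Nd nq t (sm z S) (la z S) ∧ Gd nq t S)).card : ℝ) - c2 * (((RR L X z H k V).filter fun S =>
      ky L z H S = k' ∧ Nd nq t (sm z S) (la z S)).card : ℝ)| ≤
      ∑ k' ∈ T, (8 * (1 / 2 : ℝ) ^ V * (((RR L X z H k V).filter fun S =>
      ky L z H S = k' ∧ True).card : ℝ) +
      (3 ^ (9 * k ^ 2) * κ) * (X * (1 / ((∏ p ∈ k'.1, nrm p : ℕ) : ℝ)))) := by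
    refine Finset.sum_le_sum fun k' hk => ?_
    obtain ⟨S₀, J⟩ := k'
    exact per_key hLA hb1 hH hz hV hκ h1 hk
  refine h3.trans ?_
  rw [Finset.sum_add_distrib]
  refine add_le_add (le_refl _) ?_
  exact keg_err hX hH hz hκ hN fun k' hk => hk

end Pool.Agent.D0H45.QK
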