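import Pool.Agent.D0H45.QK.Box
import Pool.Agent.D0H45.QK.Hall
import Pool.Agent.Y699.Box
import Pool.Agent.Y703.CX.Stm

/-!
# The exact proportion over `ℤ[i]` for the Laplacian of the quadratic symbols with an extra vertex

`Δ` runs over a class of squarefree primary elements; the extra vertex is a quadratic character `ψ` at
the prime above two. Definitions.
-/

set_option autoImplicit false

open scoped Classical

namespace Pool.Agent.D0H45.QK

open Finset
open H385 (ZI im1 nrm)
open Pool.Agent.Y699
open Pool.Agent.Y703.CX (jj XX eL zz kk)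
open Pool.Agent.Y703.CQ (sg prs c2 S_LA)
open Pool.Agent.H304R2.EC.A1 (prim)

/-- a class of squarefree primary elements: the product of the values of `f` lies in `K` -/
structure Cls where
  /-- the values -/
  M : Type
  /-- the multiplication -/
  [cm : CommMonoid M]
  /-- finiteness -/
  [ft : Fintype M]
  /-- the function -/
  f : ZI → M
  /-- the allowed values of the product -/
  K : Set M

attribute [instance] Cls.cm Cls.ft

/-- the class of the sets of primes -/
def Cl (κ : Cls) (S : Finset ZI) : Prop := (∀ π ∈ S, PP π) ∧ ∏ π ∈ S, κ.f π ∈ κ.K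

/-- the sets of the class with norm at most `X` -/
noncomputable def SS (κ : Cls) (X : ℕ) : Finset (Finset ZI) :=
  (QB X).powerset.filter fun S => Cl κ S ∧ ∏ π ∈ S, nrm π ≤ X

/-- the symbol of two primes -/
noncomputable def nq (π ρ : ZI) : ZMod 2 := if qr π ρ = -1 then 1 else 0

/-- the symbol of the extra vertex -/
noncomputable def tq (ψ : ZI → ℝ) (π : ZI) : ZMod 2 := if ψ π = -1 then 1 else 0

/-- the small primes of a set -/
noncomputable def sm (z : ℕ) (S : Finset ZI) : Finset ZI := S.filter fun π => nrm π ≤ z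

/-- the large primes of a set -/
noncomputable def la (z : ℕ) (S : Finset ZI) : Finset ZI := S.filter fun π => ¬ nrm π ≤ z

/-- the number of the block of a prime -/
noncomputable def bl (H : ℕ) (π : ZI) : ℕ := jj H (nrm π)

/-- the regular sets -/
noncomputable def RR (κ : Cls) (X z H k V : ℕ) : Finset (Finset ZI) :=
  (SS κ X).filter fun S => Set.InjOn (bl H) (la z S : Set ZI) ∧ S.card ≤ k ∧
    (∏ π ∈ sm z S, nrm π) * ∏ π ∈ la z S, XX H (bl H π) ≤ X ∧
    2 * (sm z S).card + V < (la z S).card

theorem nrm_two_le {π : ZI} (h : PP π) : 2 ≤ nrm π := by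
  have h1 := h.nrm_ne_one
  have h2 := nrm_pos' h.ne
  omega

theorem nrm_one_le {π : ZI} (h : PP π) : 1 ≤ nrm π := (nrm_two_le h).trans' one_le_two

theorem nq_symm (π ρ : ZI) (h1 : PP π) (h2 : PP ρ) : nq π ρ = nq ρ π := by
  unfold nq
  rw [qr_rec h1 h2]

theorem nq_self (π : ZI) (_ : PP π) : nq π π = 0 := by
  unfold nq
  rw [if_neg]
  rw [qr_zero_iff.2 dvd_rfl]
  norm_num

theorem mem_SS {κ : Cls} {X : ℕ} {S : Finset ZI} : S ∈ SS κ X ↔ Cl κ S ∧ ∏ π ∈ S, nrm π ≤ X := by
  unfold SS
  rw [Finset.mem_filter, Finset.mem_powerset]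
  constructor
  · exact fun h => h.2
  · intro h
    refine ⟨fun p hp => ?_, h⟩
    rw [mem_QB]
    have h1 : nrm p ≤ ∏ q ∈ S, nrm q :=
      Finset.single_le_prod' (f := fun q => nrm q) (fun q hq => nrm_one_le (h.1.1 q hq)) hp
    exact ⟨h1.trans h.2, h.1.1 p hp⟩

end Pool.Agent.D0H45.QK
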